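import Mathlib

namespace Pool.Agent.H878Z.C33

/-- `A` is a `C_3[3]`-set in `ℤ`: there is no 3-element set `X` of integers together with a set
`K` of three distinct integers such that every translate `X + k`, `k ∈ K`, lies in `A`. -/
def IsC33 (A : Finset ℤ) : Prop :=
  ¬ ∃ X K : Finset ℤ, X.card = 3 ∧ K.card = 3 ∧ ∀ k ∈ K, ∀ x ∈ X, x + k ∈ A

open Classical in
/-- `F n` is the largest size of a `C_3[3]`-set contained in `{1, ..., n}`. -/
noncomputable def F (n : ℕ) : ℕ :=
  ((Finset.Icc (1 : ℤ) n).powerset.filter IsC33).sup Finset.card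

end Pool.Agent.H878Z.C33
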