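import Pool.Agent.H878Z.C33Defs

namespace Pool.Agent.H878Z.C33

open Finset Module

section alg

variable {p : ℕ} [hp : Fact p.Prime] {K : Type} [Field K] [Algebra (ZMod p) K]

/-- Membership in the cone over the ovoid. -/
def InG (p : ℕ) {K : Type} [Field K] (x : K) : Prop :=
  x ≠ 0 ∧ (x ^ (p ^ 2 + 1)) ^ p = x ^ (p ^ 2 + 1)

omit hp in
lemma InG.div {x y : K} (hx : InG p x) (hy : InG p y) : InG p (x / y) := by
  refine ⟨div_ne_zero hx.1 hy.1, ?_⟩
  rw [div_pow, div_pow, hx.2, hy.2]

lemma ovoid {u : K} (hu : InG p u) {a b : ZMod p} (ha : a ≠ 0) (hb : b ≠ 0)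
    (h : InG p (algebraMap (ZMod p) K a * u + algebraMap (ZMod p) K b)) :
    ∃ c : ZMod p, u = algebraMap (ZMod p) K c := by
  have : CharP K p := charP_of_injective_algebraMap (algebraMap (ZMod p) K).injective p
  set φ := frobenius K p with hφ
  have hφd : ∀ x : K, φ x = x ^ p := fun x => rfl
  have hfix : ∀ c : ZMod p, φ (algebraMap (ZMod p) K c) = algebraMap (ZMod p) K c := by
    intro c
    rw [hφd, ← map_pow, ZMod.pow_card]
  have hQ : ∀ x : K, x ^ (p ^ 2 + 1) = φ (φ x) * x := by
    intro x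
    rw [hφd, hφd, ← pow_mul, pow_succ, sq]
  have h1 := hu.2
  have h2 := h.2
  rw [← hφd, hQ] at h1 h2
  set a' := algebraMap (ZMod p) K a with ha'
  set b' := algebraMap (ZMod p) K b with hb'
  have ha0 : a' ≠ 0 := by simpa [ha'] using ha
  have hb0 : b' ≠ 0 := by simpa [hb'] using hb
  have hfa : φ a' = a' := hfix a
  have hfb : φ b' = b' := hfix b
  simp only [map_add, map_mul, hfa, hfb] at h1 h2
  set v := φ u with hv
  set w := φ v with hw
  set z := φ w with hz
  have hT : a' * b' * (z + v - (w + u)) = 0 := by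
    linear_combination h2 - a' ^ 2 * h1
  have hT' : z + v = w + u := by
    have := (mul_eq_zero.mp hT).resolve_left (mul_ne_zero ha0 hb0)
    linear_combination this
  have hroot : (v - u) * (v - w) = 0 := by
    linear_combination v * hT' - h1
  have hfixu : v = u := by
    rcases mul_eq_zero.mp hroot with h3 | h3
    · linear_combination h3
    · have h4 : φ u = φ v := by rw [← hv, ← hw]; linear_combination h3
      exact (φ.injective h4).symm
  have hmem : u ∈ (⊥ : Subfield K) := (Subfield.mem_bot_iff_pow_eq_self K p).mpr hfixu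
  have hle : (⊥ : Subfield K) ≤ (algebraMap (ZMod p) K).fieldRange := bot_le
  obtain ⟨c, hc⟩ := hle hmem
  exact ⟨c, hc.symm⟩

lemma indep3 (l : K →ₗ[ZMod p] ZMod p) {x y z : K} (hx : InG p x) (hy : InG p y) (hz : InG p z)
    (hxy : x ≠ y) (hxz : x ≠ z) (hyz : y ≠ z) (lx : l x = 1) (ly : l y = 1) (lz : l z = 1)
    (a b c : ZMod p) (h : a • x + b • y + c • z = 0) : a = 0 ∧ b = 0 ∧ c = 0 := by
  have hs : a + b + c = 0 := by
    have := congrArg l h
    simpa [lx, ly, lz] using this
  have two : ∀ (s t : K) (d e : ZMod p), s ≠ t → d + e = 0 → d • s + e • t = 0 → d = 0 := by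
    intro s t d e hst hde h0
    have he : e = -d := by linear_combination hde
    rw [he, neg_smul, ← sub_eq_add_neg, ← smul_sub] at h0
    exact (smul_eq_zero.mp h0).resolve_right (sub_ne_zero.mpr hst)
  by_cases hc : c = 0
  · subst hc
    have ha : a = 0 := two x y a b hxy (by simpa using hs) (by simpa using h)
    subst ha
    exact ⟨rfl, by simpa using hs, rfl⟩
  by_cases hb : b = 0
  · subst hb
    have ha : a = 0 := two x z a c hxz (by simpa using hs) (by simpa using h)
    subst ha
    exact ⟨rfl, rfl, by simpa using hs⟩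
  by_cases ha : a = 0
  · subst ha
    exact absurd (two y z b c hyz (by simpa using hs) (by simpa using h)) hb
  exfalso
  have hc' : algebraMap (ZMod p) K c ≠ 0 := by simpa using hc
  have key : z / y = algebraMap (ZMod p) K (-a / c) * (x / y) + algebraMap (ZMod p) K (-b / c) := by
    simp only [Algebra.smul_def] at h
    simp only [map_div₀, map_neg]
    have hy0 := hy.1
    field_simp
    linear_combination h
  obtain ⟨d, hd⟩ := ovoid (hx.div hy) (a := -a / c) (b := -b / c) (by simp [ha, hc])
    (by simp [hb, hc]) (key ▸ hz.div hy)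
  have hxd : x = d • y := by
    rw [Algebra.smul_def, ← hd, div_mul_cancel₀ _ hy.1]
  have : d = 1 := by
    have := congrArg l hxd
    simpa [lx, ly] using this.symm
  apply hxy
  rw [hxd, this, one_smul]

lemma no_K33 [FiniteDimensional (ZMod p) K] (h4 : finrank (ZMod p) K = 4) (c : K)
    (x y : Fin 3 → K) (hx : ∀ i, InG p (x i)) (hy : ∀ i, InG p (y i))
    (ix : Function.Injective x) (iy : Function.Injective y)
    (h : ∀ i j, Algebra.trace (ZMod p) K (c * x i * y j) = 1) : False := by
  have : Finite K := Module.finite_of_finite (ZMod p)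
  have hc : c ≠ 0 := by
    rintro rfl
    have := h 0 0
    simp at this
  let B := Algebra.traceForm (ZMod p) K
  have hB : B.Nondegenerate := traceForm_nondegenerate (ZMod p) K
  have hli : LinearIndependent (ZMod p) (fun i => c * x i) := by
    rw [Fintype.linearIndependent_iff]
    intro g hg
    rw [Fin.sum_univ_three] at hg
    have hg' : g 0 • x 0 + g 1 • x 1 + g 2 • x 2 = 0 := by
      apply mul_left_cancel₀ hc
      rw [mul_zero, ← hg]
      simp only [mul_add, mul_smul_comm]
    have := indep3 ((Algebra.trace (ZMod p) K).comp (LinearMap.mulLeft (ZMod p) (c * y 0)))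
      (hx 0) (hx 1) (hx 2) (ix.ne (by decide)) (ix.ne (by decide)) (ix.ne (by decide))
      (by have := h 0 0; rwa [mul_right_comm] at this)
      (by have := h 1 0; rwa [mul_right_comm] at this)
      (by have := h 2 0; rwa [mul_right_comm] at this) _ _ _ hg'
    intro i
    fin_cases i
    · exact this.1
    · exact this.2.1
    · exact this.2.2
  set W := Submodule.span (ZMod p) (Set.range fun i => c * x i) with hW
  have hW3 : finrank (ZMod p) W = 3 := by
    rw [hW, finrank_span_eq_card hli]; simp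
  have hO : finrank (ZMod p) (B.orthogonal W) = 1 := by
    rw [LinearMap.BilinForm.finrank_orthogonal hB, h4, hW3]
  have hmem : ∀ j, y j - y 0 ∈ B.orthogonal W := by
    intro j
    rw [LinearMap.BilinForm.mem_orthogonal_iff]
    intro n hn
    refine Submodule.span_induction (p := fun n _ => B n (y j - y 0) = 0) ?_ ?_ ?_ ?_ hn
    · rintro _ ⟨i, rfl⟩
      simp only [B, Algebra.traceForm_apply, map_sub, h, sub_self]
    · simp
    · intro a b _ _ ha hb
      rw [map_add, LinearMap.add_apply, ha, hb, add_zero]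
    · intro a b _ hb
      rw [map_smul, LinearMap.smul_apply, hb, smul_zero]
  have hne : (⟨y 1 - y 0, hmem 1⟩ : B.orthogonal W) ≠ 0 := by
    intro h0
    have : y 1 - y 0 = 0 := congrArg Subtype.val h0
    exact (iy.ne (by decide : (1 : Fin 3) ≠ 0)) (sub_eq_zero.mp this)
  obtain ⟨t, ht⟩ := (finrank_eq_one_iff_of_nonzero' _ hne).mp hO ⟨y 2 - y 0, hmem 2⟩
  have ht' : t • (y 1 - y 0) = y 2 - y 0 := congrArg Subtype.val ht
  have := indep3 ((Algebra.trace (ZMod p) K).comp (LinearMap.mulLeft (ZMod p) (c * x 0)))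
      (hy 0) (hy 1) (hy 2) (iy.ne (by decide)) (iy.ne (by decide)) (iy.ne (by decide))
      (h 0 0) (h 0 1) (h 0 2) (1 - t) t (-1) (by
        rw [smul_sub] at ht'
        rw [sub_smul, one_smul, neg_smul, one_smul]
        linear_combination ht')
  exact one_ne_zero (neg_eq_zero.mp this.2.2)

lemma card_trace_fiber [Fintype K] [FiniteDimensional (ZMod p) K]
    (hK : Fintype.card K = p ^ 4) :
    (univ.filter (fun c : K => Algebra.trace (ZMod p) K c = 1)).card = p ^ 3 := by
  classical
  have hsurj : Function.Surjective (Algebra.trace (ZMod p) K) :=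
    Algebra.trace_surjective (ZMod p) K
  have h1 : Fintype.card K = ∑ a : ZMod p,
      (univ.filter (fun c : K => Algebra.trace (ZMod p) K c = a)).card := by
    rw [← Finset.card_univ]
    exact Finset.card_eq_sum_card_fiberwise (fun _ _ => mem_univ _)
  have h2 : ∀ a : ZMod p, (univ.filter (fun c : K => Algebra.trace (ZMod p) K c = a)).card
      = (univ.filter (fun c : K => Algebra.trace (ZMod p) K c = 1)).card := by
    intro a
    exact AddMonoidHom.card_fiber_eq_of_mem_range (Algebra.trace (ZMod p) K) (hsurj a) (hsurj 1)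
  simp only [h2, Finset.sum_const, card_univ, ZMod.card, smul_eq_mul] at h1
  have hp0 : 0 < p := hp.out.pos
  apply Nat.eq_of_mul_eq_mul_left hp0
  rw [← h1, hK]; ring

end alg

theorem exists_set (p : ℕ) (hpp : p.Prime) :
    ∃ A : Finset ℤ, A ⊆ Icc (1 : ℤ) ((p ^ 3 : ℕ) : ℤ) ∧ IsC33 A ∧ p * (p - 1) ≤ A.card := by
  classical
  have : Fact p.Prime := ⟨hpp⟩
  let K := GaloisField p 4
  have : Fintype K := Fintype.ofFinite K
  have h4 : finrank (ZMod p) K = 4 := GaloisField.finrank p (by norm_num)
  have hK : Fintype.card K = p ^ 4 := by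
    rw [← Nat.card_eq_fintype_card]; exact GaloisField.card p 4 (by norm_num)
  obtain ⟨g, hg⟩ := IsCyclic.exists_ofOrder_eq_natCard (α := Kˣ)
  have hp2 : 2 ≤ p := hpp.two_le
  obtain ⟨q, hq⟩ : ∃ q, p = q + 1 := ⟨p - 1, by omega⟩
  set N := (p ^ 2 + 1) * q with hN
  have hq0 : 0 < q := by omega
  have hN0 : 0 < N := by positivity
  have hord : orderOf g = (p + 1) * N := by
    rw [hg, Nat.card_units, Nat.card_eq_fintype_card, hK, hN, hq]
    apply Nat.sub_eq_of_eq_add
    ring
  set h := g ^ (p + 1) with hh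
  have hordh : orderOf h = N := by
    rw [hh, orderOf_pow_of_dvd (by omega) (by rw [hord]; exact Dvd.intro _ rfl), hord]
    exact Nat.mul_div_cancel_left N (by omega)
  have hG : ∀ a : ℤ, InG p (((h ^ a : Kˣ) : K)) := by
    intro a
    refine ⟨Units.ne_zero _, ?_⟩
    have h1 : (h ^ a) ^ N = 1 := by
      rw [← zpow_natCast, ← zpow_mul, mul_comm, zpow_mul, zpow_natCast, ← hordh, pow_orderOf_eq_one,
        one_zpow]
    have h2 : (((h ^ a : Kˣ) : K)) ^ N = 1 := by
      rw [← Units.val_pow_eq_pow_val, h1, Units.val_one]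
    calc ((((h ^ a : Kˣ) : K)) ^ (p ^ 2 + 1)) ^ p
        = (((h ^ a : Kˣ) : K)) ^ N * (((h ^ a : Kˣ) : K)) ^ (p ^ 2 + 1) := by
          rw [← pow_mul, ← pow_add, hN]
          congr 1
          rw [hq]; ring
      _ = _ := by rw [h2, one_mul]
  have hinj : ∀ a b : ℤ, |a - b| < N → ((h ^ a : Kˣ) : K) = ((h ^ b : Kˣ) : K) → a = b := by
    intro a b hab he
    have h1 : h ^ a = h ^ b := Units.ext he
    rw [zpow_eq_zpow_iff_modEq, hordh] at h1
    have h2 : (N : ℤ) ∣ a - b := h1.symm.dvd
    have := Int.eq_zero_of_abs_lt_dvd h2 hab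
    omega
  let A : K → Finset ℤ := fun c =>
    (Icc (1 : ℤ) N).filter (fun a => Algebra.trace (ZMod p) K (c * ((h ^ a : Kˣ) : K)) = 1)
  have hsum : ∑ c : K, (A c).card = N * p ^ 3 := by
    simp only [A, card_filter]
    rw [Finset.sum_comm]
    have : ∀ a ∈ Icc (1 : ℤ) N, (∑ c : K,
        if Algebra.trace (ZMod p) K (c * ((h ^ a : Kˣ) : K)) = 1 then 1 else 0) = p ^ 3 := by
      intro a _
      rw [← card_trace_fiber hK, card_filter]
      exact Equiv.sum_comp (Equiv.mulRight₀ ((h ^ a : Kˣ) : K) (Units.ne_zero _))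
        (fun c => if Algebra.trace (ZMod p) K c = 1 then 1 else 0)
    rw [Finset.sum_congr rfl this]
    simp
  obtain ⟨c, -, hc⟩ : ∃ c ∈ (univ : Finset K), p * q ≤ (A c).card := by
    apply Finset.exists_le_of_sum_le univ_nonempty
    rw [hsum, Finset.sum_const, card_univ, hK, smul_eq_mul, hN]
    have : p ^ 4 * (p * q) = (p ^ 2 * q) * p ^ 3 := by ring
    rw [this]
    gcongr
    omega
  have hNp : N ≤ p ^ 3 := by
    rw [hN, hq]
    have : (q + 1) ^ 3 = ((q + 1) ^ 2 + 1) * q + (q ^ 2 + q + 1) := by ring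
    omega
  refine ⟨A c, ?_, ?_, by rw [show p - 1 = q by omega]; exact hc⟩
  · intro a ha
    have := mem_Icc.mp (mem_filter.mp ha).1
    rw [mem_Icc]
    have h3 : (N : ℤ) ≤ ((p ^ 3 : ℕ) : ℤ) := by exact_mod_cast hNp
    omega
  · rintro ⟨X, Y, hX, hY, hXY⟩
    let ex := (X.equivFinOfCardEq hX).symm
    let ey := (Y.equivFinOfCardEq hY).symm
    have hr : ∀ i j, 1 ≤ (ex i : ℤ) + ey j ∧ (ex i : ℤ) + ey j ≤ N := fun i j =>
      mem_Icc.mp (mem_filter.mp (hXY _ (ey j).2 _ (ex i).2)).1
    refine no_K33 h4 c (fun i => ((h ^ (ex i : ℤ) : Kˣ) : K)) (fun j => ((h ^ (ey j : ℤ) : Kˣ) : K))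
      (fun i => hG _) (fun j => hG _) ?_ ?_ ?_
    · intro i i' he
      have h1 := hr i 0
      have h2 := hr i' 0
      have := hinj _ _ (by rw [abs_lt]; constructor <;> omega) he
      exact ex.injective (Subtype.ext this)
    · intro j j' he
      have h1 := hr 0 j
      have h2 := hr 0 j'
      have := hinj _ _ (by rw [abs_lt]; constructor <;> omega) he
      exact ey.injective (Subtype.ext this)
    · intro i j
      have := (mem_filter.mp (hXY _ (ey j).2 _ (ex i).2)).2
      rw [zpow_add, Units.val_mul, ← mul_assoc] at this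
      exact this

end Pool.Agent.H878Z.C33
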