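import Pool.Agent.H878Z.C33Upper
import Pool.Agent.H878Z.C33Lower
import Pool.Agent.Helper923.PNT

namespace Pool.Agent.H878Z.C33

open Finset Filter Topology

lemma prime_near (δ : ℝ) (h0 : 0 < δ) (h1 : δ < 1) :
    ∀ᶠ x : ℝ in atTop, ∃ p : ℕ, p.Prime ∧ (1 - δ) * x < p ∧ (p : ℝ) ≤ x := by
  have hθ := Pool.Agent.Helper923.PNT.theta_div_tendsto
  have hc : 0 < 1 - δ := by linarith
  have h2 : Tendsto (fun x : ℝ => Chebyshev.theta ((1 - δ) * x) / ((1 - δ) * x)) atTop (𝓝 1) :=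
    hθ.comp (tendsto_id.const_mul_atTop hc)
  have h3 : Tendsto (fun x : ℝ => Chebyshev.theta x / x
      - (1 - δ) * (Chebyshev.theta ((1 - δ) * x) / ((1 - δ) * x))) atTop (𝓝 (1 - (1 - δ) * 1)) :=
    hθ.sub (h2.const_mul _)
  have h4 := h3.eventually (lt_mem_nhds (show (0 : ℝ) < 1 - (1 - δ) * 1 by linarith))
  filter_upwards [h4, eventually_gt_atTop 0] with x hx hx0
  have h5 : Chebyshev.theta ((1 - δ) * x) < Chebyshev.theta x := by
    have e : Chebyshev.theta x / x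
      - (1 - δ) * (Chebyshev.theta ((1 - δ) * x) / ((1 - δ) * x))
      = (Chebyshev.theta x - Chebyshev.theta ((1 - δ) * x)) / x := by
      field_simp
    rw [e] at hx
    have := (div_pos_iff_of_pos_right hx0).mp hx
    linarith
  by_contra hcon
  push Not at hcon
  apply absurd h5
  rw [not_lt]
  unfold Chebyshev.theta
  apply Finset.sum_le_sum_of_subset_of_nonneg
  · intro p hp
    rw [mem_filter, mem_Ioc] at hp ⊢
    refine ⟨⟨hp.1.1, ?_⟩, hp.2⟩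
    have hpx : (p : ℝ) ≤ x := (Nat.le_floor_iff hx0.le).mp hp.1.2
    apply Nat.le_floor
    by_contra h
    exact absurd (hcon p hp.2 (not_le.mp h)) (not_lt.mpr hpx)
  · intro p _ _
    exact Real.log_natCast_nonneg p

lemma le_F {n : ℕ} {A : Finset ℤ} (h : A ⊆ Icc (1 : ℤ) n) (hA : IsC33 A) : A.card ≤ F n := by
  classical
  unfold F
  apply Finset.le_sup (f := Finset.card)
  rw [mem_filter, mem_powerset]
  exact ⟨h, hA⟩

lemma F_le {n : ℕ} {b : ℝ} (hb : 0 ≤ b)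
    (h : ∀ A : Finset ℤ, A ⊆ Icc (1 : ℤ) n → IsC33 A → (A.card : ℝ) ≤ b) : (F n : ℝ) ≤ b := by
  classical
  have : F n ≤ ⌊b⌋₊ := by
    unfold F
    apply Finset.sup_le
    intro A hA
    rw [mem_filter, mem_powerset] at hA
    exact Nat.le_floor (h A hA.1 hA.2)
  exact (Nat.cast_le.mpr this).trans (Nat.floor_le hb)

lemma cube_root (n : ℕ) : ((n : ℝ) ^ (1 / 3 : ℝ)) ^ 3 = n := by
  rw [← Real.rpow_natCast, ← Real.rpow_mul (Nat.cast_nonneg n)]
  norm_num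

lemma sq_root (n : ℕ) : ((n : ℝ) ^ (1 / 3 : ℝ)) ^ 2 = (n : ℝ) ^ (2 / 3 : ℝ) := by
  rw [← Real.rpow_natCast, ← Real.rpow_mul (Nat.cast_nonneg n)]
  norm_num

lemma root_tendsto : Tendsto (fun n : ℕ => (n : ℝ) ^ (1 / 3 : ℝ)) atTop atTop :=
  (tendsto_rpow_atTop (by norm_num)).comp tendsto_natCast_atTop_atTop

lemma lower (δ : ℝ) (h0 : 0 < δ) (h1 : δ < 1) :
    ∀ᶠ n : ℕ in atTop, (1 - 3 * δ) * (n : ℝ) ^ (2 / 3 : ℝ) ≤ F n := by
  filter_upwards [root_tendsto.eventually (prime_near δ h0 h1),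
    root_tendsto.eventually (eventually_ge_atTop (1 / δ))] with n hn ht
  obtain ⟨p, hp, hp1, hp2⟩ := hn
  rw [← sq_root]
  have hc := cube_root n
  set t := (n : ℝ) ^ (1 / 3 : ℝ) with htdef
  have ht0 : 0 < t := lt_of_lt_of_le (by positivity) ht
  have hδt : 1 ≤ δ * t := by
    rw [div_le_iff₀ h0] at ht
    linarith
  obtain ⟨A, hA1, hA2, hA3⟩ := exists_set p hp
  have hpn : p ^ 3 ≤ n := by
    have : (p : ℝ) ^ 3 ≤ t ^ 3 := by gcongr
    rw [hc] at this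
    exact_mod_cast this
  have hsub : A ⊆ Icc (1 : ℤ) n := hA1.trans (Icc_subset_Icc_right (by exact_mod_cast hpn))
  have h2 : p * (p - 1) ≤ F n := hA3.trans (le_F hsub hA2)
  have h3 : (p : ℝ) * (p - 1) ≤ F n := by
    have : ((p * (p - 1) : ℕ) : ℝ) ≤ F n := by exact_mod_cast h2
    rwa [Nat.cast_mul, Nat.cast_sub hp.one_le, Nat.cast_one] at this
  have h4 : ((1 - δ) * t) ^ 2 ≤ (p : ℝ) ^ 2 := by
    have : 0 ≤ (1 - δ) * t := by
      have : 0 < 1 - δ := by linarith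
      positivity
    gcongr
  have h5 : t ≤ δ * t ^ 2 := by nlinarith
  have h6 : 0 ≤ (δ * t) ^ 2 := by positivity
  nlinarith

lemma upper (δ : ℝ) (h0 : 0 < δ) (h1 : δ < 1) :
    ∀ᶠ n : ℕ in atTop, (F n : ℝ) ≤ (1 + 4 * δ) * (n : ℝ) ^ (2 / 3 : ℝ) := by
  obtain ⟨K, hK⟩ := exists_nat_ge (1 / δ)
  have hK0 : (0 : ℝ) < K := lt_of_lt_of_le (by positivity) hK
  have hK0' : 0 < K := by exact_mod_cast hK0
  have hδK : 1 ≤ δ * K := by
    rw [div_le_iff₀ h0] at hK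
    linarith
  filter_upwards [root_tendsto.eventually (eventually_ge_atTop ((16 * K + 1) / δ)),
    root_tendsto.eventually (eventually_ge_atTop 1)] with n ht ht1
  rw [← sq_root]
  have hc := cube_root n
  set t := (n : ℝ) ^ (1 / 3 : ℝ) with htdef
  have ht0 : 0 < t := by linarith
  have hδt : 16 * K + 1 ≤ δ * t := by
    rw [div_le_iff₀ h0] at ht
    linarith
  apply F_le (by positivity)
  intro A hsub hA
  by_contra hcon
  rw [not_le] at hcon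
  have hAn : A.Nonempty := by
    rw [← card_pos]
    have : (0 : ℝ) < A.card := lt_of_le_of_lt (by positivity) hcon
    exact_mod_cast this
  have hL : n ≤ K * (n / K + 1) := by
    have := Nat.div_add_mod n K
    have := Nat.mod_lt n hK0'
    nlinarith
  have hLr : ((n / K + 1 : ℕ) : ℝ) ≤ δ * n + 1 := by
    push_cast
    have h2 : ((n / K : ℕ) : ℝ) ≤ (n : ℝ) / K := Nat.cast_div_le
    have h3 : (n : ℝ) / K ≤ δ * n := by
      rw [div_le_iff₀ hK0]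
      have : (0 : ℝ) ≤ n := Nat.cast_nonneg n
      nlinarith
    linarith
  have ht3 : t ≤ t ^ 3 := by nlinarith [mul_nonneg ht0.le (sub_nonneg.mpr ht1), sq_nonneg t]
  have hδn : 1 ≤ δ * n := by
    rw [← hc]
    nlinarith
  have hb := upper_block n K (n / K + 1) hK0' hL A hsub hA hAn ((1 + δ) * t) (by positivity) (by
    rw [mul_pow, hc]
    have : (0 : ℝ) ≤ n := Nat.cast_nonneg n
    have h3 : 1 + 2 * δ ≤ (1 + δ) ^ 3 := by nlinarith [sq_nonneg δ, mul_pos h0 (mul_pos h0 h0)]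
    nlinarith [mul_le_mul_of_nonneg_right h3 this])
  obtain ⟨m, hm⟩ : ∃ m : ℝ, m = A.card := ⟨_, rfl⟩
  rw [← hm] at hb hcon
  have ht2 : 0 < t ^ 2 := by positivity
  have hr2 : ((1 + δ) * t) ^ 2 ≤ (1 + 3 * δ) * t ^ 2 := by
    rw [mul_pow]
    have : (1 + δ) ^ 2 ≤ 1 + 3 * δ := by nlinarith
    gcongr
  have hr3 : ((1 + δ) * t) ^ 3 ≤ 8 * t ^ 3 := by
    rw [mul_pow]
    have : (1 + δ) ^ 3 ≤ 2 ^ 3 := by gcongr; linarith
    have h8 : (1 + δ) ^ 3 ≤ 8 := by linarith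
    gcongr
  have hA1 : 16 * K * t < m - 1 - ((1 + δ) * t) ^ 2 := by nlinarith
  have hA2 : t ^ 2 < m := by nlinarith
  have hA3 : t ^ 2 * (16 * K * t) < m * (m - 1 - ((1 + δ) * t) ^ 2) :=
    mul_lt_mul'' hA2 hA1 ht2.le (by positivity)
  have hA4 : 2 * K * ((1 + δ) * t) ^ 3 ≤ 2 * K * (8 * t ^ 3) := by gcongr
  nlinarith

theorem main : Tendsto (fun n : ℕ => (F n : ℝ) / (n : ℝ) ^ (2 / 3 : ℝ)) atTop (𝓝 1) := by
  rw [Metric.tendsto_nhds]
  intro ε hε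
  obtain ⟨δ, h0, h1, h2⟩ : ∃ δ : ℝ, 0 < δ ∧ δ < 1 ∧ 4 * δ < ε :=
    ⟨min (1 / 2) (ε / 5), by positivity, lt_of_le_of_lt (min_le_left _ _) (by norm_num),
      by have := min_le_right (1 / 2) (ε / 5); linarith⟩
  filter_upwards [lower δ h0 h1, upper δ h0 h1, eventually_gt_atTop 0] with n hl hu hn
  have hn' : (0 : ℝ) < (n : ℝ) ^ (2 / 3 : ℝ) := Real.rpow_pos_of_pos (by exact_mod_cast hn) _
  rw [Real.dist_eq, abs_lt]
  have h3 : 1 - 3 * δ ≤ (F n : ℝ) / (n : ℝ) ^ (2 / 3 : ℝ) := by rwa [le_div_iff₀ hn']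
  have h4 : (F n : ℝ) / (n : ℝ) ^ (2 / 3 : ℝ) ≤ 1 + 4 * δ := by rwa [div_le_iff₀ hn']
  constructor <;> linarith

end Pool.Agent.H878Z.C33
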