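import Pool.Agent.H878Z.C33Defs

namespace Pool.Agent.H878Z.C33

open Finset

lemma six_choose (c : ℕ) : (6 : ℝ) * (c.choose 3 : ℝ) = (c : ℝ) * (c - 1) * (c - 2) := by
  induction c with
  | zero => simp
  | succ k ih =>
    have h2 : (2 : ℝ) * (k.choose 2 : ℝ) = (k : ℝ) * (k - 1) := by
      rw [Nat.cast_choose_two]; ring
    rw [Nat.choose_succ_succ' k 2]
    push_cast
    nlinarith [ih, h2]

lemma tangent (c : ℕ) (s : ℝ) (hs : 0 ≤ s) :
    3 * s ^ 2 * ((c : ℝ) - 2) - 2 * s ^ 3 ≤ (c : ℝ) * (c - 1) * (c - 2) := by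
  rcases Nat.lt_or_ge c 2 with h | h
  · interval_cases c
    · have : 0 ≤ s ^ 2 := by positivity
      have : 0 ≤ s ^ 3 := by positivity
      push_cast; nlinarith
    · have : 0 ≤ s ^ 2 := by positivity
      have : 0 ≤ s ^ 3 := by positivity
      push_cast; nlinarith
  · have hc : (2 : ℝ) ≤ c := by exact_mod_cast h
    obtain ⟨u, hu⟩ : ∃ u : ℝ, u = (c : ℝ) - 2 := ⟨_, rfl⟩
    have hu0 : 0 ≤ u := by linarith
    have hc' : (c : ℝ) = u + 2 := by linarith
    rw [hc']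
    have h1 : 0 ≤ (u - s) ^ 2 * (u + 2 * s) := by positivity
    have h2 : 0 ≤ u ^ 2 := by positivity
    nlinarith

/-- The core inequality: `D ⊆ A`, all differences `a - x` (`a ∈ A`, `x ∈ D`) lie in `T`. -/
lemma core (A D T : Finset ℤ) (hA : IsC33 A) (hD : D ⊆ A)
    (hT : ∀ x ∈ D, ∀ a ∈ A, a - x ∈ T) (s : ℝ) (hs : 0 ≤ s) :
    3 * s ^ 2 * ((D.card : ℝ) * ((A.card : ℝ) - 1) - 2 * T.card) - 2 * s ^ 3 * T.card
      ≤ (D.card : ℝ) ^ 3 := by
  classical
  set T' := T.erase 0 with hT'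
  let Dt : ℤ → Finset ℤ := fun t => D.filter (fun x => x + t ∈ A)
  have hdisj : ∀ t ∈ T', ∀ t' ∈ T', t ≠ t' →
      Disjoint (powersetCard 3 (Dt t)) (powersetCard 3 (Dt t')) := by
    intro t ht t' ht' hne
    rw [Finset.disjoint_left]
    intro X h1 h2
    rw [mem_powersetCard] at h1 h2
    have ht0 : t ≠ 0 := (mem_erase.mp ht).1
    have ht0' : t' ≠ 0 := (mem_erase.mp ht').1
    apply hA
    refine ⟨X, {0, t, t'}, h1.2, ?_, ?_⟩
    · rw [Finset.card_eq_three]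
      exact ⟨0, t, t', ht0.symm, ht0'.symm, hne, rfl⟩
    · intro k hk x hx
      simp only [mem_insert, mem_singleton] at hk
      rcases hk with rfl | rfl | rfl
      · simpa using hD (mem_filter.mp (h1.1 hx)).1
      · exact (mem_filter.mp (h1.1 hx)).2
      · exact (mem_filter.mp (h2.1 hx)).2
  have hsum : ∑ t ∈ T', ((Dt t).card.choose 3) ≤ D.card.choose 3 := by
    have h1 : (T'.biUnion (fun t => powersetCard 3 (Dt t))).card
        = ∑ t ∈ T', (powersetCard 3 (Dt t)).card :=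
      Finset.card_biUnion (fun t ht t' ht' hne => hdisj t ht t' ht' hne)
    have h2 : T'.biUnion (fun t => powersetCard 3 (Dt t)) ⊆ powersetCard 3 D := by
      intro X hX
      obtain ⟨t, _, hXt⟩ := mem_biUnion.mp hX
      exact powersetCard_mono (filter_subset _ _) hXt
    have h3 := card_le_card h2
    rw [h1, card_powersetCard] at h3
    simpa [card_powersetCard] using h3
  have hcount : ∑ t ∈ T', (Dt t).card = D.card * (A.card - 1) := by
    have h1 : ∑ t ∈ T', (Dt t).card = ∑ x ∈ D, (T'.filter (fun t => x + t ∈ A)).card := by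
      simp only [Dt, card_filter]
      rw [Finset.sum_comm]
    rw [h1, ← smul_eq_mul, ← Finset.sum_const]
    refine Finset.sum_congr rfl fun x hx => ?_
    rw [← card_erase_of_mem (hD hx)]
    refine Finset.card_bij (fun t _ => x + t) ?_ ?_ ?_
    · intro t ht
      rw [mem_filter] at ht
      rw [mem_erase]
      refine ⟨?_, ht.2⟩
      have := (mem_erase.mp ht.1).1
      omega
    · intro t _ t' _ h
      simpa using h
    · intro a ha
      rw [mem_erase] at ha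
      refine ⟨a - x, ?_, by ring⟩
      rw [mem_filter, mem_erase]
      refine ⟨⟨?_, hT x hx a ha.2⟩, by simpa using ha.2⟩
      have := ha.1
      omega
  rcases D.eq_empty_or_nonempty with hDe | hDn
  · subst hDe
    have h1 : (0 : ℝ) ≤ T.card := by positivity
    have h2 : 0 ≤ s ^ 2 * T.card := by positivity
    have h3 : 0 ≤ s ^ 3 * T.card := by positivity
    simp only [card_empty, Nat.cast_zero]
    nlinarith
  have hA1 : 1 ≤ A.card := card_pos.mpr (hDn.mono hD)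
  have hcountR : ∑ t ∈ T', ((Dt t).card : ℝ) = (D.card : ℝ) * ((A.card : ℝ) - 1) := by
    have := congrArg (fun n : ℕ => (n : ℝ)) hcount
    simp only [Nat.cast_sum, Nat.cast_mul, Nat.cast_sub hA1, Nat.cast_one] at this
    exact this
  have hsumR : ∑ t ∈ T', ((Dt t).card : ℝ) * ((Dt t).card - 1) * ((Dt t).card - 2)
      ≤ (D.card : ℝ) * (D.card - 1) * (D.card - 2) := by
    rw [← six_choose]
    simp only [← six_choose]
    rw [← Finset.mul_sum]
    have : ((∑ t ∈ T', ((Dt t).card.choose 3) : ℕ) : ℝ) ≤ (D.card.choose 3 : ℝ) := by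
      exact_mod_cast hsum
    push_cast at this
    linarith
  have hlow : ∑ t ∈ T', (3 * s ^ 2 * (((Dt t).card : ℝ) - 2) - 2 * s ^ 3)
      ≤ ∑ t ∈ T', ((Dt t).card : ℝ) * ((Dt t).card - 1) * ((Dt t).card - 2) :=
    Finset.sum_le_sum fun t _ => tangent _ s hs
  have hexp : ∑ t ∈ T', (3 * s ^ 2 * (((Dt t).card : ℝ) - 2) - 2 * s ^ 3)
      = 3 * s ^ 2 * ((D.card : ℝ) * ((A.card : ℝ) - 1) - 2 * T'.card) - 2 * s ^ 3 * T'.card := by
    rw [Finset.sum_sub_distrib, ← Finset.mul_sum, Finset.sum_sub_distrib, hcountR]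
    simp only [Finset.sum_const, nsmul_eq_mul]
    ring
  have hTT : (T'.card : ℝ) ≤ T.card := by exact_mod_cast card_le_card (erase_subset _ _)
  have hd1 : (1 : ℝ) ≤ D.card := by exact_mod_cast card_pos.mpr hDn
  have hd3 : (D.card : ℝ) * (D.card - 1) * (D.card - 2) ≤ (D.card : ℝ) ^ 3 := by nlinarith
  have h2 : 0 ≤ s ^ 2 := by positivity
  have h3 : 0 ≤ s ^ 3 := by positivity
  nlinarith [mul_le_mul_of_nonneg_left hTT h2, mul_le_mul_of_nonneg_left hTT h3]

/-- Consequence: with `R = r ^ 3 ≥ |T|`, `d (m - 1) ≤ d r ^ 2 + 2 r ^ 3`. -/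
lemma core2 (A D T : Finset ℤ) (hA : IsC33 A) (hD : D ⊆ A) (hDn : D.Nonempty)
    (hT : ∀ x ∈ D, ∀ a ∈ A, a - x ∈ T) (r : ℝ) (hr : 0 < r) (hTr : (T.card : ℝ) ≤ r ^ 3) :
    (D.card : ℝ) * ((A.card : ℝ) - 1) ≤ D.card * r ^ 2 + 2 * r ^ 3 := by
  have hd : (0 : ℝ) < D.card := by exact_mod_cast card_pos.mpr hDn
  obtain ⟨d, hdd⟩ : ∃ d : ℝ, d = (D.card : ℝ) := ⟨_, rfl⟩
  rw [← hdd] at hd ⊢
  have h := core A D T hA hD hT (d / r) (by positivity)
  rw [← hdd] at h
  have h1 : 2 * (d / r) ^ 3 * (T.card : ℝ) ≤ 2 * d ^ 3 := by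
    calc 2 * (d / r) ^ 3 * (T.card : ℝ) ≤ 2 * (d / r) ^ 3 * r ^ 3 := by gcongr
      _ = 2 * d ^ 3 := by field_simp
  have h2 : 3 * (d / r) ^ 2 * (d * ((A.card : ℝ) - 1) - 2 * T.card) ≤ 3 * d ^ 3 := by linarith
  have h3 : d * ((A.card : ℝ) - 1) - 2 * T.card ≤ d * r ^ 2 := by
    have hpos : 0 < 3 * (d / r) ^ 2 := by positivity
    have : 3 * d ^ 3 = 3 * (d / r) ^ 2 * (d * r ^ 2) := by field_simp
    rw [this] at h2
    exact le_of_mul_le_mul_left h2 hpos
  linarith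

/-- Upper bound with `K` blocks of length `L`. -/
lemma upper_block (n K L : ℕ) (hK : 0 < K) (hL : n ≤ K * L) (A : Finset ℤ)
    (hsub : A ⊆ Icc (1 : ℤ) n) (hA : IsC33 A) (hAn : A.Nonempty)
    (r : ℝ) (hr : 0 < r) (hTr : (n : ℝ) + L ≤ r ^ 3) :
    (A.card : ℝ) * ((A.card : ℝ) - 1 - r ^ 2) ≤ 2 * K * r ^ 3 := by
  classical
  have hn : 1 ≤ n := by
    obtain ⟨a, ha⟩ := hAn
    have := mem_Icc.mp (hsub ha)
    omega
  have hL0 : 0 < L := by
    rcases Nat.eq_zero_or_pos L with h | h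
    · subst h; simp at hL; omega
    · exact h
  have hL0' : (0 : ℤ) < L := by exact_mod_cast hL0
  have hmaps : ∀ a ∈ A, (a - 1) / (L : ℤ) ∈ Ico (0 : ℤ) K := by
    intro a ha
    have h := mem_Icc.mp (hsub ha)
    rw [mem_Ico]
    refine ⟨Int.ediv_nonneg (by omega) hL0'.le, ?_⟩
    rw [Int.ediv_lt_iff_lt_mul hL0']
    have : (n : ℤ) ≤ K * L := by exact_mod_cast hL
    omega
  have hne : (Ico (0 : ℤ) K).Nonempty := ⟨0, by simp [hK]⟩
  obtain ⟨j, hj, hjc⟩ := Finset.exists_le_card_fiber_of_nsmul_le_card_of_maps_to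
    (M := ℝ) (b := (A.card : ℝ) / K) hmaps hne (by
      have hK' : (K : ℝ) ≠ 0 := by positivity
      simp only [Int.card_Ico, sub_zero, Int.toNat_natCast, nsmul_eq_mul]
      rw [mul_div_cancel₀ _ hK'])
  set D := A.filter (fun a => (a - 1) / (L : ℤ) = j) with hDdef
  have hK' : (0 : ℝ) < K := by exact_mod_cast hK
  have hm : (0 : ℝ) < A.card := by exact_mod_cast card_pos.mpr hAn
  have hDpos : (0 : ℝ) < D.card := lt_of_lt_of_le (by positivity) hjc
  have hDn : D.Nonempty := card_pos.mp (by exact_mod_cast hDpos)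
  have hcore := core2 A D (Ioo (-(j * L) - L) (n - j * L)) hA (filter_subset _ _) hDn (by
    intro x hx a ha
    rw [mem_filter] at hx
    have h1 := mem_Icc.mp (hsub ha)
    have h2 := hx.2
    have h3 := Int.ediv_mul_add_emod (x - 1) L
    have h4 := Int.emod_nonneg (x - 1) hL0'.ne'
    have h5 := Int.emod_lt_of_pos (x - 1) hL0'
    rw [h2] at h3
    rw [mem_Ioo]
    constructor <;> omega) r hr (by
    rw [Int.card_Ioo]
    have : (↑n - j * ↑L - (-(j * ↑L) - ↑L) - 1 : ℤ).toNat ≤ n + L := by omega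
    have h2 : (((↑n - j * ↑L - (-(j * ↑L) - ↑L) - 1 : ℤ).toNat : ℕ) : ℝ) ≤ ((n + L : ℕ) : ℝ) := by
      exact_mod_cast this
    push_cast at h2
    linarith)
  have hmD : (A.card : ℝ) ≤ K * D.card := by
    rw [div_le_iff₀ hK'] at hjc
    linarith
  rcases le_or_gt ((A.card : ℝ) - 1 - r ^ 2) 0 with hneg | hpos
  · have : (A.card : ℝ) * ((A.card : ℝ) - 1 - r ^ 2) ≤ 0 := mul_nonpos_of_nonneg_of_nonpos hm.le hneg
    have : 0 ≤ 2 * (K : ℝ) * r ^ 3 := by positivity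
    linarith
  · calc (A.card : ℝ) * ((A.card : ℝ) - 1 - r ^ 2)
        ≤ K * D.card * ((A.card : ℝ) - 1 - r ^ 2) := by gcongr
      _ = K * (D.card * ((A.card : ℝ) - 1) - D.card * r ^ 2) := by ring
      _ ≤ K * (2 * r ^ 3) := by gcongr; linarith
      _ = 2 * K * r ^ 3 := by ring

end Pool.Agent.H878Z.C33
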