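import Pool.Agent.H878Z.TDDefs

namespace Pool.Agent.H878Z.TD

open Set

abbrev X := ℕ → Bool
abbrev Fn := X × X → ℕ →. ℕ

def Op (F : Fn) : Prop := ∀ n m, IsOpen {z | m ∈ F z n}

def pairF (f h : Fn) : Fn := fun z n => Nat.pair <$> f z n <*> h z n
def compF (f h : Fn) : Fn := fun z n => h z n >>= f z
def precF (f h : Fn) : Fn := fun z p =>
  let (a, n) := Nat.unpair p
  n.rec (f z a) fun y IH => do
    let i ← IH
    h z (Nat.pair a (Nat.pair y i))
def rfindF (f : Fn) : Fn := fun z a => Nat.rfind fun n => (fun m => m = 0) <$> f z (Nat.pair a n)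

def base : Set Fn :=
  {(fun _ _ => 0 : Fn), (fun _ => (Nat.succ : ℕ →. ℕ) : Fn),
    (fun _ n => ((Nat.unpair n).1 : ℕ) : Fn),
    (fun _ n => ((Nat.unpair n).2 : ℕ) : Fn), (fun z => orc z.1 : Fn), (fun z => orc z.2 : Fn)}

def step (S : Set Fn) : Set Fn :=
  S ∪ image2 pairF S S ∪ image2 compF S S ∪ image2 precF S S ∪ rfindF '' S

def fam : ℕ → Set Fn
  | 0 => base
  | n + 1 => step (fam n)

lemma fam_countable (n : ℕ) : (fam n).Countable := by
  induction n with
  | zero => exact (show base.Finite by unfold base; exact Set.toFinite _).countable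
  | succ n ih =>
    exact (((ih.union (ih.image2 ih _)).union (ih.image2 ih _)).union (ih.image2 ih _)).union
      (ih.image _)

lemma fam_mono : Monotone fam := monotone_nat_of_le_succ fun n F hF =>
  Or.inl (Or.inl (Or.inl (Or.inl hF)))

lemma op_const (f : ℕ →. ℕ) : Op (fun _ => f) := fun n m => by
  by_cases h : m ∈ f n
  · simp [h]
  · simp [h]

lemma op_orc (g : X × X → X) (hg : Continuous g) : Op (fun z => orc (g z)) := fun n m => by
  have : {z | m ∈ orc (g z) n} = (fun z => g z n) ⁻¹' {b | m = b.toNat} := by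
    ext z; simp [orc]
  rw [this]
  exact (isOpen_discrete _).preimage ((continuous_apply n).comp hg)

lemma op_pair {f h : Fn} (hf : Op f) (hh : Op h) : Op (pairF f h) := fun n m => by
  have : {z | m ∈ pairF f h z n} = ⋃ a, ⋃ b, ⋃ (_ : Nat.pair a b = m),
      ({z | a ∈ f z n} ∩ {z | b ∈ h z n}) := by
    ext z
    simp only [pairF, Seq.seq, Part.map_eq_map, Part.bind_eq_bind, mem_setOf_eq, Part.mem_bind_iff,
      Part.mem_map_iff, mem_iUnion, mem_inter_iff, exists_prop]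
    constructor
    · rintro ⟨_, ⟨a, ha, rfl⟩, b, hb, rfl⟩
      exact ⟨a, b, rfl, ha, hb⟩
    · rintro ⟨a, b, rfl, ha, hb⟩
      exact ⟨_, ⟨a, ha, rfl⟩, b, hb, rfl⟩
  rw [this]
  exact isOpen_iUnion fun a => isOpen_iUnion fun b => isOpen_iUnion fun _ =>
    (hf n a).inter (hh n b)

lemma op_comp {f h : Fn} (hf : Op f) (hh : Op h) : Op (compF f h) := fun n m => by
  have : {z | m ∈ compF f h z n} = ⋃ a, ({z | a ∈ h z n} ∩ {z | m ∈ f z a}) := by
    ext z
    simp [compF]
  rw [this]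
  exact isOpen_iUnion fun a => (hh n a).inter (hf a m)

lemma op_prec {f h : Fn} (hf : Op f) (hh : Op h) : Op (precF f h) := fun p m => by
  have key : ∀ a n m : ℕ, IsOpen {z | m ∈ (n.rec (f z a) fun y IH => do
      let i ← IH
      h z (Nat.pair a (Nat.pair y i)) : Part ℕ)} := by
    intro a n
    induction n with
    | zero => intro m; exact hf a m
    | succ n ih =>
      intro m
      have : {z | m ∈ ((n + 1).rec (f z a) fun y IH => do
          let i ← IH
          h z (Nat.pair a (Nat.pair y i)) : Part ℕ)} = ⋃ i, ({z | i ∈ (n.rec (f z a) fun y IH => do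
          let i ← IH
          h z (Nat.pair a (Nat.pair y i)) : Part ℕ)} ∩
            {z | m ∈ h z (Nat.pair a (Nat.pair n i))}) := by
        ext z
        simp
      rw [this]
      exact isOpen_iUnion fun i => (ih i).inter (hh _ m)
  exact key p.unpair.1 p.unpair.2 m

lemma op_rfind {f : Fn} (hf : Op f) : Op (rfindF f) := fun a m => by
  have : {z | m ∈ rfindF f z a} = {z | 0 ∈ f z (Nat.pair a m)} ∩
      ⋂ k ∈ Finset.range m, ⋃ v, ⋃ (_ : v ≠ 0), {z | v ∈ f z (Nat.pair a k)} := by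
    ext z
    simp only [rfindF, mem_setOf_eq, Nat.mem_rfind, Part.map_eq_map, Part.mem_map_iff,
      decide_eq_true_eq, exists_eq_right, decide_eq_false_iff_not, mem_inter_iff, mem_iInter,
      Finset.mem_range, mem_iUnion, exists_prop]
    refine and_congr Iff.rfl ⟨fun H k hk => ?_, fun H k hk => ?_⟩
    · obtain ⟨v, h1, h2⟩ := H hk
      exact ⟨v, h2, h1⟩
    · obtain ⟨v, h1, h2⟩ := H k hk
      exact ⟨v, h2, h1⟩
  rw [this]
  exact (hf _ _).inter (isOpen_biInter_finset fun k _ =>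
    isOpen_iUnion fun v => isOpen_iUnion fun _ => hf _ _)

lemma fam_good (n : ℕ) : ∀ F ∈ fam n, Op F ∧ ∀ z, Nat.RecursiveIn {orc z.1, orc z.2} (F z) := by
  induction n with
  | zero =>
    intro F hF
    simp only [fam, base, mem_insert_iff, mem_singleton_iff] at hF
    rcases hF with rfl | rfl | rfl | rfl | rfl | rfl
    · exact ⟨op_const _, fun _ => .zero⟩
    · exact ⟨op_const _, fun _ => .succ⟩
    · exact ⟨op_const _, fun _ => .left⟩
    · exact ⟨op_const _, fun _ => .right⟩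
    · exact ⟨op_orc _ continuous_fst, fun _ => .oracle _ (by simp)⟩
    · exact ⟨op_orc _ continuous_snd, fun _ => .oracle _ (by simp)⟩
  | succ n ih =>
    rintro F ((((hF | ⟨f, hf, h, hh, rfl⟩) | ⟨f, hf, h, hh, rfl⟩) | ⟨f, hf, h, hh, rfl⟩) |
      ⟨f, hf, rfl⟩)
    · exact ih F hF
    · exact ⟨op_pair (ih f hf).1 (ih h hh).1, fun z => .pair ((ih f hf).2 z) ((ih h hh).2 z)⟩
    · exact ⟨op_comp (ih f hf).1 (ih h hh).1, fun z => .comp ((ih f hf).2 z) ((ih h hh).2 z)⟩
    · exact ⟨op_prec (ih f hf).1 (ih h hh).1, fun z => .prec ((ih f hf).2 z) ((ih h hh).2 z)⟩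
    · exact ⟨op_rfind (ih f hf).1, fun z => .rfind ((ih f hf).2 z)⟩

lemma fam_complete (z : X × X) (f : ℕ →. ℕ) (hf : Nat.RecursiveIn {orc z.1, orc z.2} f) :
    ∃ n, ∃ F ∈ fam n, F z = f := by
  induction hf with
  | zero => exact ⟨0, fun _ _ => 0, Or.inl rfl, rfl⟩
  | succ => exact ⟨0, fun _ => (Nat.succ : ℕ →. ℕ), Or.inr (Or.inl rfl), rfl⟩
  | left => exact ⟨0, fun _ n => ((Nat.unpair n).1 : ℕ), Or.inr (Or.inr (Or.inl rfl)), rfl⟩
  | right =>
    exact ⟨0, fun _ n => ((Nat.unpair n).2 : ℕ), Or.inr (Or.inr (Or.inr (Or.inl rfl))), rfl⟩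
  | oracle g hg =>
    rcases hg with rfl | rfl
    · exact ⟨0, fun z => orc z.1, Or.inr (Or.inr (Or.inr (Or.inr (Or.inl rfl)))), rfl⟩
    · exact ⟨0, fun z => orc z.2, Or.inr (Or.inr (Or.inr (Or.inr (Or.inr rfl)))), rfl⟩
  | pair _ _ ih1 ih2 =>
    obtain ⟨n, F, hF, rfl⟩ := ih1
    obtain ⟨m, H, hH, rfl⟩ := ih2
    exact ⟨max n m + 1, pairF F H, Or.inl (Or.inl (Or.inl (Or.inr
      ⟨F, fam_mono (le_max_left _ _) hF, H, fam_mono (le_max_right _ _) hH, rfl⟩))), rfl⟩
  | comp _ _ ih1 ih2 =>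
    obtain ⟨n, F, hF, rfl⟩ := ih1
    obtain ⟨m, H, hH, rfl⟩ := ih2
    exact ⟨max n m + 1, compF F H, Or.inl (Or.inl (Or.inr
      ⟨F, fam_mono (le_max_left _ _) hF, H, fam_mono (le_max_right _ _) hH, rfl⟩)), rfl⟩
  | prec _ _ ih1 ih2 =>
    obtain ⟨n, F, hF, rfl⟩ := ih1
    obtain ⟨m, H, hH, rfl⟩ := ih2
    exact ⟨max n m + 1, precF F H, Or.inl (Or.inr
      ⟨F, fam_mono (le_max_left _ _) hF, H, fam_mono (le_max_right _ _) hH, rfl⟩), rfl⟩
  | rfind _ ih =>
    obtain ⟨n, F, hF, rfl⟩ := ih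
    exact ⟨n + 1, rfindF F, Or.inr ⟨F, hF, rfl⟩, rfl⟩

/-- A countable enumeration of the oracle computations from two binary sequences. -/
theorem exists_enum : ∃ Φ : ℕ → Fn, (∀ e, Op (Φ e)) ∧
    (∀ e z, Nat.RecursiveIn {orc z.1, orc z.2} (Φ e z)) ∧
    ∀ z f, Nat.RecursiveIn {orc z.1, orc z.2} f → ∃ e, Φ e z = f := by
  have hc : (⋃ n, fam n).Countable := countable_iUnion fam_countable
  obtain ⟨Φ, hΦ⟩ := hc.exists_eq_range ⟨fun _ _ => 0, mem_iUnion.2 ⟨0, Or.inl rfl⟩⟩
  have hm : ∀ e, ∃ n, Φ e ∈ fam n := fun e => mem_iUnion.1 (hΦ ▸ mem_range_self e)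
  refine ⟨Φ, fun e => ?_, fun e => ?_, fun z f hf => ?_⟩
  · obtain ⟨n, hn⟩ := hm e
    exact (fam_good n _ hn).1
  · obtain ⟨n, hn⟩ := hm e
    exact (fam_good n _ hn).2
  · obtain ⟨n, F, hF, rfl⟩ := fam_complete z f hf
    have : F ∈ range Φ := hΦ ▸ mem_iUnion.2 ⟨n, hF⟩
    obtain ⟨e, rfl⟩ := this
    exact ⟨e, rfl⟩

/-- Reducibility to a pair of sequences. -/
def Red (x p q : X) : Prop := Nat.RecursiveIn {orc p, orc q} (orc x)

/-- Reducibility to one sequence. -/
def Red1 (x y : X) : Prop := Nat.RecursiveIn {orc y} (orc x)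

lemma red1_refl (x : X) : Red1 x x := .oracle _ rfl

lemma Red1.trans {x y z : X} (h1 : Red1 x y) (h2 : Red1 y z) : Red1 x z :=
  h1.subst (by rintro g rfl; exact h2)

lemma Red1.trans2 {x y p q : X} (h1 : Red1 x y) (h2 : Red y p q) : Red x p q :=
  h1.subst (by rintro g rfl; exact h2)

lemma Red.trans1 {x p q p' q' : X} (h : Red x p q) (h1 : Red1 p p') (h2 : Red1 q q') :
    Red x p' q' := by
  refine h.subst ?_
  rintro g (rfl | rfl)
  · exact h1.subst (by rintro g rfl; exact .oracle _ (by simp))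
  · exact h2.subst (by rintro g rfl; exact .oracle _ (by simp))

lemma red_self_iff {x y : X} : Red x y y ↔ Red1 x y := by simp [Red, Red1]

lemma red1_sub (x : X) (s : ℕ → ℕ) (hs : Primrec s) : Red1 (fun n => x (s n)) x := by
  have h1 : Nat.RecursiveIn {orc x} (fun n => (s n : ℕ)) :=
    (Primrec.nat_iff.mp hs).recursiveIn
  refine (Nat.RecursiveIn.comp (red1_refl x) h1).of_eq fun n => ?_
  simp [orc]

def ev (x : X) : X := fun n => x (2 * n)
def od (x : X) : X := fun n => x (2 * n + 1)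

lemma red1_ev (x : X) : Red1 (ev x) x :=
  red1_sub x _ (Primrec.nat_mul.comp (Primrec.const 2) Primrec.id)

lemma red1_od (x : X) : Red1 (od x) x :=
  red1_sub x _ (Primrec.succ.comp (Primrec.nat_mul.comp (Primrec.const 2) Primrec.id))

lemma red_join (x : X) : Red x (ev x) (od x) := by
  have hh : Nat.RecursiveIn {orc (ev x), orc (od x)} (fun n => (n / 2 : ℕ)) :=
    (Primrec.nat_iff.mp (Primrec.nat_div.comp Primrec.id (Primrec.const 2))).recursiveIn
  have hid : Nat.RecursiveIn {orc (ev x), orc (od x)} (fun n => (n : ℕ)) :=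
    (Primrec.nat_iff.mp Primrec.id).recursiveIn
  have h1 := Nat.RecursiveIn.comp (Nat.RecursiveIn.oracle (orc (ev x)) (by simp)) hh
  have h2 := Nat.RecursiveIn.comp (Nat.RecursiveIn.oracle (orc (od x)) (by simp)) hh
  have hsel : Primrec (fun k : ℕ =>
      if k.unpair.1 % 2 = 0 then k.unpair.2.unpair.1 else k.unpair.2.unpair.2) := by
    refine Primrec.ite (Primrec.eq.comp (Primrec.nat_mod.comp (Primrec.fst.comp Primrec.unpair)
      (Primrec.const 2)) (Primrec.const 0)) ?_ ?_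
    · exact Primrec.fst.comp (Primrec.unpair.comp (Primrec.snd.comp Primrec.unpair))
    · exact Primrec.snd.comp (Primrec.unpair.comp (Primrec.snd.comp Primrec.unpair))
  have h3 := Nat.RecursiveIn.comp (Primrec.nat_iff.mp hsel).recursiveIn (hid.pair (h1.pair h2))
  refine h3.of_eq fun n => ?_
  simp only [orc, ev, od, Seq.seq, Part.coe_some, Part.bind_eq_bind, Part.bind_some,
    Part.map_eq_map, Part.map_some, Nat.unpair_pair, PFun.coe_val]
  congr 1
  split_ifs with h
  · rw [show 2 * (n / 2) = n by omega]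
  · rw [show 2 * (n / 2) + 1 = n by omega]

lemma equiv_iff (x y : X) : TuringEquivalent (orc x) (orc y) ↔ Red1 x y ∧ Red1 y x := by
  simp only [TuringEquivalent, AntisymmRel, TuringReducible, RecursiveIn.iff_nat, Red1]

end Pool.Agent.H878Z.TD
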