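import Mathlib

namespace Pool.Agent.H878Z.TD

/-- A binary sequence as an oracle: the total function with values `0` and `1`. -/
def orc (x : ℕ → Bool) : ℕ →. ℕ := fun n => Part.some (x n).toNat

/-- A set of binary sequences is Turing invariant. -/
def TuringInvariant (Y : Set (ℕ → Bool)) : Prop :=
  ∀ x y, TuringEquivalent (orc x) (orc y) → x ∈ Y → y ∈ Y

/-- The position reached after the first `n` moves of the play `x`. -/
def pos (x : ℕ → Bool) (n : ℕ) : List Bool := List.ofFn fun i : Fin n => x i

/-- Player I (moves `x 0, x 2, ...`) has a winning strategy in the Gale-Stewart game `G(A)`. -/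
def WinsI (A : Set (ℕ → Bool)) : Prop :=
  ∃ σ : List Bool → Bool, ∀ x : ℕ → Bool, (∀ n, x (2 * n) = σ (pos x (2 * n))) → x ∈ A

/-- Player II (moves `x 1, x 3, ...`) has a winning strategy in the Gale-Stewart game `G(A)`. -/
def WinsII (A : Set (ℕ → Bool)) : Prop :=
  ∃ τ : List Bool → Bool, ∀ x : ℕ → Bool, (∀ n, x (2 * n + 1) = τ (pos x (2 * n + 1))) → x ∉ A

end Pool.Agent.H878Z.TD
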