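import Mathlib

/-!
Mycielski's theorem for finite tuples, by the Baire category theorem (adapted from the two-point
version in the start file H565R2/FO2/Myc).
-/

namespace Pool.Agent.H878Z.TD

open Set TopologicalSpace Filter Topology

theorem finite_choice {G : Type*} [MetricSpace G] [CompleteSpace G] {ι κ : Type}
    [Fintype ι] [Fintype κ] (W : Set (κ → G)) (hWo : IsOpen W) (hWd : Dense W)
    (y0 : ι → G) (ε : ℝ) (hε : 0 < ε) :
    ∃ y : ι → G, (∀ i, dist (y i) (y0 i) < ε) ∧
      ∀ e : κ → ι, Function.Injective e → (fun k => y (e k)) ∈ W := by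
  classical
  let D : (κ → ι) → Set (ι → G) := fun e => {y | Function.Injective e → (fun k => y (e k)) ∈ W}
  have hDo : ∀ e, IsOpen (D e) := by
    intro e
    by_cases hp : Function.Injective e
    · have : D e = (fun (y : ι → G) k => y (e k)) ⁻¹' W := by
        ext y; simp [D, hp]
      rw [this]
      exact hWo.preimage (continuous_pi fun k => continuous_apply _)
    · have : D e = univ := by
        ext y; simp [D, hp]
      rw [this]; exact isOpen_univ
  have hDd : ∀ e, Dense (D e) := by
    intro e
    by_cases hp : Function.Injective e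
    · intro y
      rw [Metric.mem_closure_iff]
      intro δ hδ
      obtain ⟨w, hw, hwd⟩ := Metric.mem_closure_iff.1 (hWd (fun k => y (e k))) δ hδ
      refine ⟨Function.extend e w y, ?_, ?_⟩
      · intro _
        have : (fun k => Function.extend e w y (e k)) = w := funext fun k => hp.extend_apply _ _ k
        rw [this]
        exact hw
      · rw [dist_pi_lt_iff hδ] at hwd ⊢
        intro i
        by_cases h2 : ∃ k, e k = i
        · obtain ⟨k, rfl⟩ := h2
          rw [hp.extend_apply]
          exact hwd k
        · rw [Function.extend_apply' _ _ _ h2, dist_self]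
          exact hδ
    · have : D e = univ := by
        ext y; simp [D, hp]
      rw [this]; exact dense_univ
  have hd := dense_iInter_of_isOpen hDo hDd
  obtain ⟨y, hy1, hy2⟩ := Metric.mem_closure_iff.1 (hd y0) ε hε
  refine ⟨y, fun i => ?_, fun e he => mem_iInter.1 hy1 e he⟩
  rw [dist_pi_lt_iff hε] at hy2
  rw [dist_comm]
  exact hy2 i

/-- Restriction of a binary sequence to its first `M` entries. -/
def res (M : ℕ) (b : ℕ → Bool) : Fin M → Bool := fun i => b i

lemma res_cont (M : ℕ) : Continuous (res M) := continuous_pi fun _ => continuous_apply _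

theorem mycielski {G : Type*} [MetricSpace G] [CompleteSpace G] [Nonempty G] {κ : Type}
    [Fintype κ] (W : ℕ → Set (κ → G)) (hWo : ∀ n, IsOpen (W n)) (hWd : ∀ n, Dense (W n)) :
    ∃ h : (ℕ → Bool) → G, Continuous h ∧
      ∀ b : κ → ℕ → Bool, Function.Injective b → ∀ n, (fun k => h (b k)) ∈ W n := by
  classical
  let O : ℕ × ℕ → Set C(ℕ → Bool, G) := fun p =>
    {h | ∀ b : κ → ℕ → Bool, Function.Injective (fun k => res p.1 (b k)) →
      (fun k => h (b k)) ∈ W p.2}
  have hOo : ∀ p, IsOpen (O p) := by
    intro p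
    rw [Metric.isOpen_iff]
    intro h hh
    have hcl : IsClosed {b : κ → ℕ → Bool | Function.Injective (fun k => res p.1 (b k))} := by
      have : {b : κ → ℕ → Bool | Function.Injective (fun k => res p.1 (b k))} =
          (fun (b : κ → ℕ → Bool) k => res p.1 (b k)) ⁻¹' {r | Function.Injective r} := by
        ext q; simp
      rw [this]
      exact (isClosed_discrete _).preimage
        (continuous_pi fun k => (res_cont _).comp (continuous_apply k))
    have hcomp : IsCompact ((fun (b : κ → ℕ → Bool) k => h (b k)) ''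
        {b : κ → ℕ → Bool | Function.Injective (fun k => res p.1 (b k))}) := by
      apply hcl.isCompact.image
      exact continuous_pi fun k => h.continuous.comp (continuous_apply k)
    obtain ⟨δ, hδ, hthick⟩ := hcomp.exists_thickening_subset_open (hWo p.2) (by
      rintro _ ⟨q, hq, rfl⟩
      exact hh q hq)
    refine ⟨δ, hδ, fun g hg b hbb => hthick ?_⟩
    rw [Metric.mem_thickening_iff]
    refine ⟨fun k => h (b k), ⟨b, hbb, rfl⟩, ?_⟩
    rw [Metric.mem_ball] at hg
    rw [dist_pi_lt_iff hδ]
    intro k
    exact (ContinuousMap.dist_apply_le_dist (b k)).trans_lt hg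
  have hOd : ∀ p, Dense (O p) := by
    intro p h0
    rw [Metric.mem_closure_iff]
    intro ε hε
    have hN : ∃ N : ℕ, ∀ b b' : ℕ → Bool, (∀ i, i < N → b i = b' i) →
        dist (h0 b) (h0 b') < ε / 3 := by
      by_contra hc
      push Not at hc
      choose B B' hB1 hB2 using hc
      obtain ⟨b, _, φ, hφ, hlim⟩ := (isCompact_univ (X := ℕ → Bool)).tendsto_subseq
        (x := B) (fun n => mem_univ _)
      have hlim' : Tendsto (B' ∘ φ) atTop (𝓝 b) := by
        rw [tendsto_pi_nhds] at hlim ⊢
        intro i
        refine (hlim i).congr' ?_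
        filter_upwards [eventually_gt_atTop i] with k hk
        exact hB1 (φ k) i (lt_of_lt_of_le hk (hφ.id_le k))
      have h1 := (h0.continuous.tendsto b).comp hlim
      have h2 := (h0.continuous.tendsto b).comp hlim'
      have h3 := h1.dist h2
      rw [dist_self] at h3
      have h4 := ge_of_tendsto' h3 (fun k => hB2 (φ k))
      linarith
    obtain ⟨N, hN⟩ := hN
    set M := max N p.1 with hM
    let rep : (Fin M → Bool) → (ℕ → Bool) := fun s i => if h : i < M then s ⟨i, h⟩ else false
    obtain ⟨y, hy1, hy2⟩ := finite_choice (W p.2) (hWo _) (hWd _) (fun s => h0 (rep s)) (ε / 3)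
      (by linarith)
    refine ⟨⟨fun b => y (res M b), (continuous_of_discreteTopology (f := y)).comp (res_cont M)⟩,
      ?_, ?_⟩
    · intro b hbb
      apply hy2 (fun k => res M (b k))
      intro k k' heq
      apply hbb
      funext i
      exact congrFun heq ⟨i, lt_of_lt_of_le i.2 (le_max_right _ _)⟩
    · rw [ContinuousMap.dist_lt_iff hε]
      intro b
      have h1 : dist (h0 b) (h0 (rep (res M b))) < ε / 3 := by
        apply hN
        intro i hi
        have : i < M := lt_of_lt_of_le hi (le_max_left _ _)
        simp only [rep, dif_pos this, res]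
      have h2 := hy1 (res M b)
      calc dist (h0 b) (y (res M b)) ≤ dist (h0 b) (h0 (rep (res M b))) +
            dist (h0 (rep (res M b))) (y (res M b)) := dist_triangle _ _ _
        _ < ε / 3 + ε / 3 := by
            rw [dist_comm (h0 (rep (res M b))) (y (res M b))]
            exact add_lt_add h1 h2
        _ < ε := by linarith
  have hne : Nonempty C(ℕ → Bool, G) := ⟨ContinuousMap.const _ (Classical.arbitrary G)⟩
  have hd := dense_iInter_of_isOpen hOo hOd
  obtain ⟨h, hh⟩ := hd.nonempty
  refine ⟨h, h.continuous, fun b hbb n => ?_⟩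
  have : ∀ q : κ × κ, ∃ i, q.1 ≠ q.2 → b q.1 i ≠ b q.2 i := by
    intro q
    by_cases hq : q.1 = q.2
    · exact ⟨0, fun h => absurd hq h⟩
    · obtain ⟨i, hi⟩ := Function.ne_iff.1 (hbb.ne hq)
      exact ⟨i, fun _ => hi⟩
  choose f hf using this
  obtain ⟨M, hM⟩ := (Set.finite_range f).bddAbove
  refine mem_iInter.1 hh (M + 1, n) b ?_
  intro k k' heq
  by_contra hne
  exact hf (k, k') hne (congrFun heq ⟨f (k, k'), Nat.lt_succ_of_le (hM ⟨_, rfl⟩)⟩)

theorem mycielski' {G : Type*} [TopologicalSpace G] [IsCompletelyMetrizableSpace G] [Nonempty G]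
    {κ ι : Type} [Fintype κ] [Countable ι] [Nonempty ι] (W : ι → Set (κ → G))
    (hWo : ∀ n, IsOpen (W n)) (hWd : ∀ n, Dense (W n)) :
    ∃ h : (ℕ → Bool) → G, Continuous h ∧
      ∀ b : κ → ℕ → Bool, Function.Injective b → ∀ n, (fun k => h (b k)) ∈ W n := by
  let := upgradeIsCompletelyMetrizable G
  obtain ⟨s, hs⟩ := exists_surjective_nat ι
  obtain ⟨h, h1, h2⟩ := mycielski (fun n => W (s n)) (fun n => hWo _) (fun n => hWd _)
  refine ⟨h, h1, fun b hb n => ?_⟩
  obtain ⟨m, rfl⟩ := hs n
  exact h2 b hb m

end Pool.Agent.H878Z.TD
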