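import Pool.Agent.H878Z.TDLim
import Pool.Agent.H878Z.TDMyc

namespace Pool.Agent.H878Z.TD

open Set Topology Filter

lemma dense_open_union {Z : Type*} [TopologicalSpace Z] (U : Set Z) :
    Dense (U ∪ interior Uᶜ) := by
  intro z
  rw [closure_union, interior_compl]
  by_cases h : z ∈ closure U
  · exact Or.inl h
  · exact Or.inr (subset_closure h)

lemma op_dom {F : Fn} (hF : Op F) (n : ℕ) : IsOpen {z | (F z n).Dom} := by
  have : {z | (F z n).Dom} = ⋃ m, {z | m ∈ F z n} := by
    ext z
    simp [Part.dom_iff_mem]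
  rw [this]
  exact isOpen_iUnion fun m => hF n m

lemma cont01 : Continuous (fun y : Fin 3 → X => (y 0, y 1)) :=
  (continuous_apply 0).prodMk (continuous_apply 1)

lemma dense_bad {F : Fn} (hF : Op F) :
    Dense (closure {y : Fin 3 → X | F (y 0, y 1) = orc (y 2)})ᶜ := by
  rw [dense_iff_inter_open]
  intro U hU hne
  by_contra hcon
  have hsub : U ⊆ closure {y : Fin 3 → X | F (y 0, y 1) = orc (y 2)} := by
    intro z hz
    by_contra h
    exact hcon ⟨z, hz, h⟩
  obtain ⟨z, hz⟩ := hne
  obtain ⟨y, hyU, hy⟩ := mem_closure_iff.1 (hsub hz) U hU hz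
  let s : ℕ → Fin 3 → X := fun n => Function.update y 2 (Function.update (y 2) n (!y 2 n))
  have hs : Tendsto s atTop (𝓝 y) := by
    rw [tendsto_pi_nhds]
    intro k
    rw [tendsto_pi_nhds]
    intro i
    refine tendsto_const_nhds.congr' ?_
    filter_upwards [eventually_gt_atTop i] with n hn
    by_cases hk : k = 2
    · subst hk
      simp [s, Function.update_of_ne hn.ne]
    · simp [s, Function.update_of_ne hk]
  obtain ⟨n, hn⟩ := (hs.eventually (hU.mem_nhds hyU)).exists
  have hV : IsOpen (U ∩ {v : Fin 3 → X | (y 2 n).toNat ∈ F (v 0, v 1) n} ∩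
      {v : Fin 3 → X | v 2 n ≠ y 2 n}) :=
    (hU.inter ((hF n _).preimage cont01)).inter
      (isOpen_ne_fun ((continuous_apply n).comp (continuous_apply 2)) continuous_const)
  have hmem : s n ∈ (U ∩ {v : Fin 3 → X | (y 2 n).toNat ∈ F (v 0, v 1) n} ∩
      {v : Fin 3 → X | v 2 n ≠ y 2 n}) := by
    refine ⟨⟨hn, ?_⟩, ?_⟩
    · have h0 : s n 0 = y 0 := Function.update_of_ne (by decide) _ _
      have h1 : s n 1 = y 1 := Function.update_of_ne (by decide) _ _
      simp only [mem_setOf_eq, h0, h1]
      rw [show F (y 0, y 1) = orc (y 2) from hy]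
      simp [orc]
    · simp [s]
  obtain ⟨v, ⟨⟨-, hv1⟩, hv2⟩, hv⟩ := mem_closure_iff.1 (hsub hn) _ hV hmem
  simp only [mem_setOf_eq] at hv hv1 hv2
  rw [hv] at hv1
  simp only [orc, Part.mem_some_iff] at hv1
  apply hv2
  revert hv1
  cases v 2 n <;> cases y 2 n <;> simp

lemma third (u v : X) : ∃ r : X, r ≠ u ∧ r ≠ v := by
  refine ⟨fun n => if n = 0 then !u 0 else !v 1, fun h => ?_, fun h => ?_⟩
  · have := congrFun h 0
    simp at this
  · have := congrFun h 1
    simp at this

lemma inj3 {u v r : X} (h1 : u ≠ v) (h2 : r ≠ u) (h3 : r ≠ v) :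
    Function.Injective (![u, v, r] : Fin 3 → X) := by
  intro i j hij
  fin_cases i <;> fin_cases j <;> simp_all [eq_comm]

def cons (b : Bool) (w : X) : X := fun n => Nat.casesOn n b w

lemma cons_cont (b : Bool) : Continuous (cons b) := by
  refine continuous_pi fun n => ?_
  cases n with
  | zero => exact continuous_const
  | succ n => exact continuous_apply n

lemma cons_inj {b : Bool} {w w' : X} (h : cons b w = cons b w') : w = w' :=
  funext fun n => congrFun h (n + 1)

lemma cons_ne (w w' : X) : cons false w ≠ cons true w' := fun h => by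
  have := congrFun h 0
  simp [cons] at this

/-- Two perfect families of independent reals on which total computations form closed sets. -/
theorem exists_fam {Φ : ℕ → Fn} (hop : ∀ e, Op (Φ e))
    (hcomp : ∀ z f, Nat.RecursiveIn {orc z.1, orc z.2} f → ∃ e, Φ e z = f) :
    ∃ t0 t1 : X → X, Continuous t0 ∧ Continuous t1 ∧
      (∀ w w0 w1, Red (t0 w) (t0 w0) (t1 w1) → w = w0) ∧
      (∀ w w0 w1, Red (t1 w) (t0 w0) (t1 w1) → w = w1) ∧
      ∀ e, IsClosed {q : (X × X) × X | Φ e (t0 q.1.1, t1 q.1.2) = orc q.2} := by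
  let U : ℕ → ℕ → Set (Fin 3 → X) := fun e N => {y | (Φ e (y 0, y 1) N).Dom}
  have hU : ∀ e N, IsOpen (U e N) := fun e N => (op_dom (hop e) N).preimage cont01
  obtain ⟨h, hc, hW⟩ := mycielski' (G := X) (κ := Fin 3) (ι := ℕ × ℕ)
    (fun i => (U i.1 i.2 ∪ interior (U i.1 i.2)ᶜ) ∩
      (closure {y : Fin 3 → X | Φ i.1 (y 0, y 1) = orc (y 2)})ᶜ)
    (fun i => ((hU _ _).union isOpen_interior).inter isClosed_closure.isOpen_compl)
    (fun i => (dense_open_union _).inter_of_isOpen_right (dense_bad (hop _))
      isClosed_closure.isOpen_compl)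
  have hind : ∀ u v r, u ≠ v → Red (h r) (h u) (h v) → r = u ∨ r = v := by
    intro u v r huv hred
    by_contra hcon
    rw [not_or] at hcon
    obtain ⟨e, he⟩ := hcomp (h u, h v) _ hred
    exact (hW _ (inj3 huv hcon.1 hcon.2) (e, 0)).2 (subset_closure he)
  refine ⟨fun w => h (cons false w), fun w => h (cons true w), hc.comp (cons_cont _),
    hc.comp (cons_cont _), fun w w0 w1 hr => ?_, fun w w0 w1 hr => ?_, fun e => ?_⟩
  · rcases hind _ _ _ (cons_ne _ _) hr with h1 | h1
    · exact cons_inj h1
    · exact absurd h1 (cons_ne _ _)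
  · rcases hind _ _ _ (cons_ne _ _) hr with h1 | h1
    · exact absurd h1.symm (cons_ne _ _)
    · exact cons_inj h1
  · rw [← isOpen_compl_iff, isOpen_iff_forall_mem_open]
    rintro ⟨⟨w0, w1⟩, x⟩ hq
    have hT : Continuous (fun q : (X × X) × X => (h (cons false q.1.1), h (cons true q.1.2))) :=
      (hc.comp ((cons_cont _).comp (continuous_fst.comp continuous_fst))).prodMk
        (hc.comp ((cons_cont _).comp (continuous_snd.comp continuous_fst)))
    obtain ⟨n, hn⟩ := Function.ne_iff.1 hq
    obtain ⟨r, hr0, hr1⟩ := third (cons false w0) (cons true w1)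
    rcases (hW _ (inj3 (cons_ne w0 w1) hr0 hr1) (e, n)).1 with h1 | h1
    · obtain ⟨m, hm⟩ := Part.dom_iff_mem.1 h1
      refine ⟨{q | m ∈ Φ e (h (cons false q.1.1), h (cons true q.1.2)) n} ∩ {q | q.2 n = x n},
        ?_, ((hop e n m).preimage hT).inter ?_, hm, rfl⟩
      · rintro q ⟨hq1, hq2⟩ hq3
        simp only [mem_setOf_eq] at hq1 hq2 hq3
        rw [hq3] at hq1
        apply hn
        have h2 : Φ e (h (cons false w0), h (cons true w1)) n = Part.some m :=
          Part.eq_some_iff.2 hm
        simp only [orc, Part.mem_some_iff] at hq1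
        simp only [h2, orc, hq1, hq2]
      · have hcn : Continuous (fun q : (X × X) × X => q.2 n) :=
          (continuous_apply n).comp continuous_snd
        exact (isOpen_discrete {x n}).preimage hcn
    · let T : (X × X) × X → Fin 3 → X :=
        fun q => ![h (cons false q.1.1), h (cons true q.1.2), h r]
      have hTc : Continuous T := by
        refine continuous_pi fun k => ?_
        fin_cases k
        · exact continuous_fst.comp hT
        · exact continuous_snd.comp hT
        · exact continuous_const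
      refine ⟨T ⁻¹' interior (U e n)ᶜ, ?_, isOpen_interior.preimage hTc, ?_⟩
      · intro q hq1 hq3
        apply interior_subset hq1
        simp only [mem_setOf_eq] at hq3
        show (Φ e (h (cons false q.1.1), h (cons true q.1.2)) n).Dom
        rw [hq3]
        trivial
      · have : T ((w0, w1), x) = fun k => h (![cons false w0, cons true w1, r] k) := by
          funext k
          fin_cases k <;> rfl
        show T ((w0, w1), x) ∈ interior (U e n)ᶜ
        rw [this]
        exact h1

lemma lusin {Z : Type} [MeasurableSpace Z] [StandardBorelSpace Z] [Nonempty Z]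
    (S : Set (Z × X)) (hS : MeasurableSet S) (hu : ∀ p q x, (p, x) ∈ S → (q, x) ∈ S → p = q) :
    MeasurableSet {x | ∃ p, (p, x) ∈ S} ∧
      ∃ δ : X → Z, Measurable δ ∧ ∀ p x, (p, x) ∈ S → δ x = p := by
  have := hS.standardBorel
  have hemb : MeasurableEmbedding (fun z : S => z.1.2) := by
    refine Measurable.measurableEmbedding (measurable_snd.comp measurable_subtype_coe) ?_
    rintro ⟨⟨p, x⟩, h1⟩ ⟨⟨q, y⟩, h2⟩ h
    simp only at h
    subst h
    exact Subtype.ext (Prod.ext (hu p q x h1 h2) rfl)
  constructor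
  · convert hemb.measurableSet_range using 1
    ext x
    constructor
    · rintro ⟨p, hp⟩
      exact ⟨⟨(p, x), hp⟩, rfl⟩
    · rintro ⟨⟨⟨p, y⟩, hp⟩, rfl⟩
      exact ⟨p, hp⟩
  · obtain ⟨δ, h1, h2⟩ := hemb.exists_measurable_extend (g := fun z : S => z.1.1)
      (measurable_fst.comp measurable_subtype_coe) (fun _ => inferInstance)
    exact ⟨δ, h1, fun p x hp => congrFun h2 ⟨(p, x), hp⟩⟩

lemma red_meas : MeasurableSet {z : X × X × X | Red z.1 z.2.1 z.2.2} := by
  obtain ⟨Φ, hop, hs, hc⟩ := exists_enum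
  have : {z : X × X × X | Red z.1 z.2.1 z.2.2} =
      ⋃ e, ⋂ n, ⋃ b : Bool, ({z | z.1 n = b} ∩ {z | b.toNat ∈ Φ e z.2 n}) := by
    ext z
    simp only [mem_setOf_eq, mem_iUnion, mem_iInter, mem_inter_iff, exists_eq_left']
    constructor
    · intro h
      obtain ⟨e, he⟩ := hc z.2 _ h
      exact ⟨e, fun n => by rw [he]; simp [orc]⟩
    · rintro ⟨e, he⟩
      have h2 : Φ e z.2 = orc z.1 := funext fun n => Part.eq_some_iff.2 (he n)
      have h3 := hs e z.2
      rw [h2] at h3
      exact h3
  rw [this]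
  refine MeasurableSet.iUnion fun e => MeasurableSet.iInter fun n =>
    MeasurableSet.iUnion fun b => MeasurableSet.inter ?_ ?_
  · exact measurableSet_eq_fun ((measurable_pi_apply n).comp measurable_fst) measurable_const
  · exact ((hop e n _).preimage continuous_snd).measurableSet

lemma red_meas' {Z : Type} [MeasurableSpace Z] {a b c : Z → X} (ha : Measurable a)
    (hb : Measurable b) (hc : Measurable c) : MeasurableSet {z | Red (a z) (b z) (c z)} :=
  (ha.prodMk (hb.prodMk hc)) red_meas

lemma red1_meas' {Z : Type} [MeasurableSpace Z] {a b : Z → X} (ha : Measurable a)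
    (hb : Measurable b) : MeasurableSet {z | Red1 (a z) (b z)} := by
  simp only [← red_self_iff]
  exact red_meas' ha hb hb

end Pool.Agent.H878Z.TD
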