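import Pool.Agent.H878Z.TDComp

namespace Pool.Agent.H878Z.TD

open Set Topology Filter

lemma baire_cyl {ι : Type} [Countable ι] (S : Set X) (hS : IsClosed S) (hne : S.Nonempty)
    (F : ι → Set X) (hF : ∀ i, IsClosed (S ∩ F i)) (hcov : ∀ w ∈ S, ∃ i, w ∈ F i) :
    ∃ i, ∃ w0 ∈ S, ∃ M : ℕ, ∀ w ∈ S, (∀ k < M, w k = w0 k) → w ∈ F i := by
  have : CompactSpace S := isCompact_iff_compactSpace.mp hS.isCompact
  have : Nonempty S := hne.to_subtype
  obtain ⟨i, w0, hw0⟩ := nonempty_interior_of_iUnion_of_closed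
    (f := fun i => (Subtype.val ⁻¹' (S ∩ F i) : Set S))
    (fun i => (hF i).preimage continuous_subtype_val) (by
      ext w
      simp only [mem_iUnion, mem_preimage, mem_inter_iff, mem_univ, iff_true]
      obtain ⟨i, hi⟩ := hcov w w.2
      exact ⟨i, w.2, hi⟩)
  rw [mem_interior_iff_mem_nhds, mem_nhds_subtype] at hw0
  obtain ⟨U, hU, hsub⟩ := hw0
  obtain ⟨V, ⟨x, M, rfl⟩, hV1, hV2⟩ :=
    (PiNat.isTopologicalBasis_cylinders (fun _ : ℕ => Bool)).mem_nhds_iff.mp hU
  refine ⟨i, w0, w0.2, M, fun w hw hag => ?_⟩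
  have : (⟨w, hw⟩ : S) ∈ (Subtype.val ⁻¹' U : Set S) := by
    apply hV2
    rw [PiNat.mem_cylinder_iff] at hV1 ⊢
    intro k hk
    exact (hag k hk).trans (hV1 k hk)
  exact (hsub this).2

/-- Column `k` of `w` has limit `b`. -/
def Lim (w : X) (k : ℕ) (b : Bool) : Prop := ∃ J, ∀ j, J ≤ j → w (Nat.pair k j) = b

def Stab (w : X) (k : ℕ) : Prop := ∃ b, Lim w k b

lemma Lim.unique {w : X} {k : ℕ} {b c : Bool} (h1 : Lim w k b) (h2 : Lim w k c) : b = c := by
  obtain ⟨J, hJ⟩ := h1
  obtain ⟨K, hK⟩ := h2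
  rw [← hJ (max J K) (le_max_left _ _), hK (max J K) (le_max_right _ _)]

/-- The sequence in which move `n` is coded. -/
def col (th : ℕ → Bool) (wt wu : X) (n : ℕ) : X := if th n then wt else wu

/-- The player who moves at the positions in `th` wins the limit game. -/
def Win (th : ℕ → Bool) (A : Set X) (wt wu : X) : Prop :=
  (∃ n, th n = false ∧ ¬ Stab wu n ∧ ∀ m < n, Stab (col th wt wu m) m) ∨
    ∃ a : X, (∀ n, Lim (col th wt wu n) n (a n)) ∧ a ∈ A

def SS (th : ℕ → Bool) (n : ℕ) (a : X) (s : X × ℕ) : Set X :=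
  {w | (∀ i < s.2, w i = s.1 i) ∧
    ∀ k < n, th k = false → ∀ j, s.2 ≤ Nat.pair k j → w (Nat.pair k j) = a k}

lemma SS_closed (th : ℕ → Bool) (n : ℕ) (a : X) (s : X × ℕ) : IsClosed (SS th n a s) := by
  have h : ∀ (i : ℕ) (b : Bool), IsClosed {w : X | w i = b} := fun i b =>
    isClosed_eq (continuous_apply i) continuous_const
  simp only [SS, setOf_and, setOf_forall]
  refine (isClosed_iInter fun i => isClosed_iInter fun _ => h _ _).inter ?_
  exact isClosed_iInter fun k => isClosed_iInter fun _ => isClosed_iInter fun _ =>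
    isClosed_iInter fun j => isClosed_iInter fun _ => h _ _

lemma SS_nonempty (th : ℕ → Bool) (n : ℕ) (a : X) (s : X × ℕ) : (SS th n a s).Nonempty := by
  refine ⟨fun i => if i < s.2 then s.1 i else a (Nat.unpair i).1, fun i hi => by simp [hi], ?_⟩
  intro k _ _ j hj
  simp [not_lt.mpr hj]

lemma SS_succ (th : ℕ → Bool) (n : ℕ) (a : X) (s : X × ℕ) : SS th (n + 1) a s ⊆ SS th n a s :=
  fun _ hw => ⟨hw.1, fun k hk => hw.2 k (by omega)⟩

lemma SS_congr (th : ℕ → Bool) (n : ℕ) {a a' : X} (h : ∀ k < n, a k = a' k) (s : X × ℕ) :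
    SS th n a s = SS th n a' s := by
  ext w
  simp only [SS, mem_setOf_eq]
  refine and_congr Iff.rfl (forall₂_congr fun k hk => ?_)
  rw [h k hk]

lemma SS_lim {th : ℕ → Bool} {n : ℕ} {a : X} {s : X × ℕ} {w : X} (hw : w ∈ SS th n a s)
    {k : ℕ} (hk : k < n) (ht : th k = false) : Lim w k (a k) :=
  ⟨s.2, fun j hj => hw.2 k hk ht j (hj.trans (Nat.right_le_pair k j))⟩

section main

variable {th : ℕ → Bool} {A : Set X} {C : Set X} {ψ : X → X}

lemma step_exists (hψ : ContinuousOn ψ C) (hwin : ∀ w ∈ C, Win th A (ψ w) w)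
    {n : ℕ} {a : X} {s : X × ℕ} (hC : SS th n a s ⊆ C)
    (hinv : ∀ w ∈ SS th n a s, ∀ k < n, th k = true → Lim (ψ w) k (a k)) (ht : th n = true) :
    ∃ r : (X × ℕ) × Bool, SS th n a r.1 ⊆ SS th n a s ∧ ∀ w ∈ SS th n a r.1, Lim (ψ w) n r.2 := by
  obtain ⟨⟨b, J⟩, w0, hw0, M, hM⟩ := baire_cyl (ι := Bool × ℕ) (SS th n a s) (SS_closed _ _ _ _)
    (SS_nonempty _ _ _ _) (fun i => {w | ∀ j, i.2 ≤ j → ψ w (Nat.pair n j) = i.1}) (by
      intro i
      have : IsClosed {y : X | ∀ j, i.2 ≤ j → y (Nat.pair n j) = i.1} := by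
        simp only [setOf_forall]
        exact isClosed_iInter fun j => isClosed_iInter fun _ =>
          isClosed_eq (continuous_apply _) continuous_const
      exact (hψ.mono hC).preimage_isClosed_of_isClosed (SS_closed _ _ _ _) this) (by
      intro w hw
      have hst : Stab (ψ w) n := by
        rcases hwin w (hC hw) with ⟨m, hm1, hm2, hm3⟩ | ⟨c, hc, -⟩
        · rcases lt_trichotomy m n with h | h | h
          · exact absurd ⟨_, SS_lim hw h hm1⟩ hm2
          · subst h; rw [ht] at hm1; exact absurd hm1 (by simp)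
          · have := hm3 n h
            simpa [col, ht] using this
        · have := hc n
          simp only [col, ht, if_true] at this
          exact ⟨_, this⟩
      obtain ⟨b, J, hJ⟩ := hst
      exact ⟨(b, J), hJ⟩)
  have hsub : SS th n a (w0, max M s.2) ⊆ SS th n a s := by
    intro w hw
    refine ⟨fun i hi => ?_, fun k hk hkt j hj => ?_⟩
    · rw [hw.1 i (lt_of_lt_of_le hi (le_max_right _ _))]
      exact hw0.1 i hi
    · by_cases h : Nat.pair k j < max M s.2
      · rw [hw.1 _ h]
        exact hw0.2 k hk hkt j hj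
      · exact hw.2 k hk hkt j (not_lt.mp h)
  refine ⟨((w0, max M s.2), b), hsub, fun w hw => ⟨J, ?_⟩⟩
  exact hM w (hsub hw) fun k hk => hw.1 k (lt_of_lt_of_le hk (le_max_left _ _))

def trunc (n : ℕ) (a : X) : X := fun i => if i < n then a i else false

open Classical in
noncomputable def stp (th : ℕ → Bool) (ψ : X → X) (n : ℕ) (a : X) (s : X × ℕ) : (X × ℕ) × Bool :=
  if h : ∃ r : (X × ℕ) × Bool, SS th n a r.1 ⊆ SS th n a s ∧ ∀ w ∈ SS th n a r.1, Lim (ψ w) n r.2
  then h.choose else (s, false)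

noncomputable def st (th : ℕ → Bool) (ψ : X → X) (s0 : X × ℕ) (a : X) : ℕ → X × ℕ
  | 0 => s0
  | n + 1 => if th n then (stp th ψ n (trunc n a) (st th ψ s0 a n)).1 else st th ψ s0 a n

lemma trunc_congr {n : ℕ} {a a' : X} (h : ∀ k < n, a k = a' k) : trunc n a = trunc n a' := by
  funext i
  unfold trunc
  split_ifs with hi
  · exact h i hi
  · rfl

lemma st_congr (s0 : X × ℕ) {a a' : X} (n : ℕ) (h : ∀ k < n, a k = a' k) :
    st th ψ s0 a n = st th ψ s0 a' n := by
  induction n with
  | zero => rfl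
  | succ n ih =>
    have h' : ∀ k < n, a k = a' k := fun k hk => h k (by omega)
    simp only [st, ih h', trunc_congr h']

theorem extract (s0 : X × ℕ) (hC : ∀ w : X, (∀ i < s0.2, w i = s0.1 i) → w ∈ C)
    (hψ : ContinuousOn ψ C) (hwin : ∀ w ∈ C, Win th A (ψ w) w) :
    ∃ σ : List Bool → Bool, ∀ x : X, (∀ n, th n = true → x n = σ (pos x n)) → x ∈ A := by
  let mv : X → ℕ → Bool := fun a n => (stp th ψ n (trunc n a) (st th ψ s0 a n)).2
  refine ⟨fun l => mv (fun i => l.getD i false) l.length, fun x hx => ?_⟩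
  have hx' : ∀ n, th n = true → x n = mv x n := by
    intro n hn
    have hag : ∀ k < n, (fun i => (pos x n).getD i false) k = x k := by
      intro k hk
      simp [pos, hk]
    rw [hx n hn]
    have hl : (pos x n).length = n := by simp [pos]
    simp only [mv, hl, trunc_congr hag, st_congr s0 n hag]
  have htr : ∀ n s, SS th n (trunc n x) s = SS th n x s := fun n s =>
    SS_congr th n (fun k hk => by simp [trunc, hk]) s
  have key : ∀ n, SS th n x (st th ψ s0 x n) ⊆ C ∧
      (∀ w ∈ SS th n x (st th ψ s0 x n), ∀ k < n, th k = true → Lim (ψ w) k (x k)) := by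
    intro n
    induction n with
    | zero => exact ⟨fun w hw => hC w hw.1, fun _ _ k hk => absurd hk (by omega)⟩
    | succ n ih =>
      by_cases ht : th n = true
      · have hex := step_exists hψ hwin ih.1 ih.2 ht
        simp only [← htr n] at hex
        have hsp := hex.choose_spec
        have he : stp th ψ n (trunc n x) (st th ψ s0 x n) = hex.choose := by
          unfold stp; rw [dif_pos hex]
        rw [← he] at hsp
        simp only [htr n] at hsp
        have hs : st th ψ s0 x (n + 1) = (stp th ψ n (trunc n x) (st th ψ s0 x n)).1 := by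
          simp [st, ht]
        rw [hs]
        refine ⟨((SS_succ _ _ _ _).trans hsp.1).trans ih.1, fun w hw k hk hkt => ?_⟩
        rcases Nat.lt_succ_iff_lt_or_eq.mp hk with h | h
        · exact ih.2 w (hsp.1 (SS_succ _ _ _ _ hw)) k h hkt
        · subst h
          rw [hx' k ht]
          exact hsp.2 w (SS_succ _ _ _ _ hw)
      · have hs : st th ψ s0 x (n + 1) = st th ψ s0 x n := by simp [st, ht]
        rw [hs]
        refine ⟨(SS_succ _ _ _ _).trans ih.1, fun w hw k hk hkt => ?_⟩
        rcases Nat.lt_succ_iff_lt_or_eq.mp hk with h | h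
        · exact ih.2 w (SS_succ _ _ _ _ hw) k h hkt
        · subst h; exact absurd hkt ht
  have hdec : ∀ n, SS th (n + 1) x (st th ψ s0 x (n + 1)) ⊆ SS th n x (st th ψ s0 x n) := by
    intro n
    by_cases ht : th n = true
    · have hex := step_exists hψ hwin (key n).1 (key n).2 ht
      simp only [← htr n] at hex
      have hsp := hex.choose_spec
      have he : stp th ψ n (trunc n x) (st th ψ s0 x n) = hex.choose := by
        unfold stp; rw [dif_pos hex]
      rw [← he] at hsp
      simp only [htr n] at hsp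
      have hs : st th ψ s0 x (n + 1) = (stp th ψ n (trunc n x) (st th ψ s0 x n)).1 := by
        simp [st, ht]
      rw [hs]
      exact (SS_succ _ _ _ _).trans hsp.1
    · have hs : st th ψ s0 x (n + 1) = st th ψ s0 x n := by simp [st, ht]
      rw [hs]
      exact SS_succ _ _ _ _
  obtain ⟨w, hw⟩ := IsCompact.nonempty_iInter_of_sequence_nonempty_isCompact_isClosed
    (fun n => SS th n x (st th ψ s0 x n)) hdec (fun n => SS_nonempty _ _ _ _)
    (SS_closed _ _ _ _).isCompact (fun n => SS_closed _ _ _ _)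
  rw [mem_iInter] at hw
  have hlim : ∀ k, Lim (col th (ψ w) w k) k (x k) := by
    intro k
    by_cases ht : th k = true
    · simp only [col, ht, if_true]
      exact (key (k + 1)).2 w (hw _) k (by omega) ht
    · simp only [col, ht]
      exact SS_lim (hw (k + 1)) (by omega) (by simpa using ht)
  rcases hwin w ((key 0).1 (hw 0)) with ⟨m, hm1, hm2, -⟩ | ⟨c, hc, hcA⟩
  · have := hlim m
    simp only [col, hm1] at this
    exact absurd ⟨_, this⟩ hm2
  · have : x = c := funext fun k => (hlim k).unique (hc k)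
    rw [this]; exact hcA

end main

end Pool.Agent.H878Z.TD
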