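import Pool.Agent.H878Z.TDGen

namespace Pool.Agent.H878Z.TD

open Set Topology Filter

def pl (th : ℕ → Bool) (σ : List Bool → Bool) (y : X) : ℕ → List Bool
  | 0 => []
  | n + 1 => pl th σ y n ++ [if th n then σ (pl th σ y n) else y (n / 2)]

def play (th : ℕ → Bool) (σ : List Bool → Bool) (y : X) : X :=
  fun n => if th n then σ (pl th σ y n) else y (n / 2)

lemma pos_play (th : ℕ → Bool) (σ : List Bool → Bool) (y : X) (n : ℕ) :
    pos (play th σ y) n = pl th σ y n := by
  induction n with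
  | zero => simp [pos, pl]
  | succ n ih =>
    unfold pos at ih ⊢
    rw [List.ofFn_succ_last]
    simp only [Fin.val_castSucc, Fin.val_last, ih]
    rfl

lemma pl_lc (th : ℕ → Bool) (σ : List Bool → Bool) (n : ℕ) :
    IsLocallyConstant (fun y : X => pl th σ y n) := by
  induction n with
  | zero => exact IsLocallyConstant.const _
  | succ n ih =>
    have h2 : IsLocallyConstant (fun y : X => y (n / 2)) :=
      (IsLocallyConstant.iff_continuous _).2 (continuous_apply _)
    exact ih.comp₂ h2 (fun l b => l ++ [if th n then σ l else b])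

lemma play_cont (th : ℕ → Bool) (σ : List Bool → Bool) : Continuous (play th σ) := by
  refine continuous_pi fun n => ?_
  have h2 : IsLocallyConstant (fun y : X => y (n / 2)) :=
    (IsLocallyConstant.iff_continuous _).2 (continuous_apply _)
  exact ((pl_lc th σ n).comp₂ h2 (fun l b => if th n then σ l else b)).continuous

lemma side {th : ℕ → Bool} {A : Set X} {ψ : X → X} (K : ℕ → Set (X × X))
    (hK : ∀ e, IsClosed (K e)) (hcov : ∀ w, ∃ e, (w, ψ w) ∈ K e)
    (hu : ∀ e w w', (w, w') ∈ K e → w' = ψ w) (hwin : ∀ w, Win th A (ψ w) w) :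
    ∃ σ : List Bool → Bool, ∀ x : X, (∀ n, th n = true → x n = σ (pos x n)) → x ∈ A := by
  have hcl : ∀ S : Set (X × X), IsClosed S → IsClosed (Prod.fst '' S) := fun S hS =>
    (hS.isCompact.image continuous_fst).isClosed
  obtain ⟨e, w0, -, M, hM⟩ := baire_cyl (ι := ℕ) univ isClosed_univ univ_nonempty
    (fun e => Prod.fst '' K e) (fun e => by rw [univ_inter]; exact hcl _ (hK e))
    (fun w _ => by
      obtain ⟨e, he⟩ := hcov w
      exact ⟨e, _, he, rfl⟩)
  refine extract (C := Prod.fst '' K e) (ψ := ψ) (w0, M) (fun w hw => hM w trivial hw) ?_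
    (fun w _ => hwin w)
  rw [continuousOn_iff_isClosed]
  intro t ht
  refine ⟨Prod.fst '' (K e ∩ Prod.snd ⁻¹' t), hcl _ ((hK e).inter (ht.preimage continuous_snd)), ?_⟩
  ext w
  constructor
  · rintro ⟨h1, ⟨w1, w'⟩, h2, rfl⟩
    refine ⟨⟨(w1, w'), ⟨h2, ?_⟩, rfl⟩, ⟨_, h2, rfl⟩⟩
    show w' ∈ t
    rw [hu e w1 w' h2]
    exact h1
  · rintro ⟨⟨⟨w1, w'⟩, ⟨h2, h3⟩, rfl⟩, h4⟩
    refine ⟨?_, h4⟩
    show ψ w1 ∈ t
    rw [← hu e w1 w' h2]
    exact h3

def evn (n : ℕ) : Bool := decide (n % 2 = 0)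
def odd (n : ℕ) : Bool := !evn n

lemma col_odd (a b : X) (n : ℕ) : col odd a b n = col evn b a n := by
  unfold col odd
  cases evn n <;> rfl

lemma win_flip {A : Set X} {a b : X} (h : ¬ Win evn A a b) : Win odd Aᶜ b a := by
  classical
  by_cases hs : ∀ n, Stab (col evn a b n) n
  · choose c hc using hs
    refine Or.inr ⟨c, fun n => by rw [col_odd]; exact hc n, fun hA => h (Or.inr ⟨c, hc, hA⟩)⟩
  · push Not at hs
    obtain ⟨N, h1, h2⟩ : ∃ N, ¬ Stab (col evn a b N) N ∧ ∀ m < N, Stab (col evn a b m) m :=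
      ⟨Nat.find hs, Nat.find_spec hs, fun m hm => not_not.1 (Nat.find_min hs hm)⟩
    cases he : evn N with
    | false =>
      refine absurd (Or.inl ⟨_, he, ?_, h2⟩) h
      simpa [col, he] using h1
    | true =>
      refine Or.inl ⟨N, by simp [odd, he], ?_, fun m hm => ?_⟩
      · simpa [col, he] using h1
      · rw [col_odd]; exact h2 m hm

lemma lim_meas {Z : Type} [MeasurableSpace Z] {f : Z → X} (hf : Measurable f) (k : ℕ) (b : Bool) :
    MeasurableSet {z | Lim (f z) k b} := by
  simp only [Lim, setOf_exists, setOf_forall]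
  exact MeasurableSet.iUnion fun J => MeasurableSet.iInter fun j => MeasurableSet.iInter fun _ =>
    measurableSet_eq_fun ((measurable_pi_apply _).comp hf) measurable_const

lemma stab_meas {Z : Type} [MeasurableSpace Z] {f : Z → X} (hf : Measurable f) (k : ℕ) :
    MeasurableSet {z | Stab (f z) k} := by
  simp only [Stab, setOf_exists]
  exact MeasurableSet.iUnion fun b => lim_meas hf k b

lemma col_meas (n : ℕ) : Measurable (fun p : X × X => col evn p.1 p.2 n) := by
  unfold col
  cases evn n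
  · exact measurable_snd
  · exact measurable_fst

lemma win_decomp : ∃ (B D : Set (X × X)) (φ : X × X → X), MeasurableSet B ∧ MeasurableSet D ∧
    Measurable φ ∧ ∀ A p, p ∈ B ∪ (D ∩ φ ⁻¹' A) ↔ Win evn A p.1 p.2 := by
  classical
  refine ⟨{p | ∃ n, evn n = false ∧ ¬ Stab p.2 n ∧ ∀ m < n, Stab (col evn p.1 p.2 m) m},
    {p | ∀ n, Stab (col evn p.1 p.2 n) n},
    fun p n => decide (Lim (col evn p.1 p.2 n) n true), ?_, ?_, ?_, fun A p => ?_⟩
  · simp only [setOf_exists, setOf_and, setOf_forall]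
    refine MeasurableSet.iUnion fun n => (MeasurableSet.const _).inter
      ((stab_meas measurable_snd n).compl.inter ?_)
    exact MeasurableSet.iInter fun m => MeasurableSet.iInter fun _ => stab_meas (col_meas m) m
  · simp only [setOf_forall]
    exact MeasurableSet.iInter fun m => stab_meas (col_meas m) m
  · refine measurable_pi_lambda _ fun n => measurable_to_bool ?_
    convert lim_meas (col_meas n) n true using 1
    ext p
    simp
  · have key : ∀ a : X, (∀ n, Lim (col evn p.1 p.2 n) n (a n)) →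
        (fun n => decide (Lim (col evn p.1 p.2 n) n true)) = a := by
      intro a ha
      funext n
      cases h : a n with
      | false =>
        rw [decide_eq_false_iff_not]
        intro h2
        have := (ha n).unique h2
        rw [h] at this
        exact absurd this (by simp)
      | true =>
        rw [decide_eq_true_iff, ← h]
        exact ha n
    refine or_congr Iff.rfl ⟨?_, ?_⟩
    · rintro ⟨h1, h2⟩
      choose c hc using h1
      refine ⟨c, hc, ?_⟩
      rw [← key c hc]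
      exact h2
    · rintro ⟨a, h1, h2⟩
      refine ⟨fun n => ⟨_, h1 n⟩, ?_⟩
      show (fun n => decide (Lim (col evn p.1 p.2 n) n true)) ∈ A
      rw [key a h1]
      exact h2

theorem main : ∃ (G B D : Set (ℕ → Bool)) (φ : (ℕ → Bool) → (ℕ → Bool)),
    MeasurableSet G ∧ MeasurableSet B ∧ MeasurableSet D ∧ Measurable φ ∧ TuringInvariant G ∧
    ∀ A : Set (ℕ → Bool), TuringInvariant (B ∪ (D ∩ φ ⁻¹' A)) ∧
      (WinsI ((B ∪ (D ∩ φ ⁻¹' A)) ∩ {x | (fun n => x (2 * n)) ∈ G}) → WinsI A) ∧
      (WinsII ((B ∪ (D ∩ φ ⁻¹' A)) ∩ {x | (fun n => x (2 * n)) ∈ G}) → WinsII A) := by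
  obtain ⟨Φ, hop, hsound, hcomp⟩ := exists_enum
  obtain ⟨t0, t1, hc0, hc1, hi0, hi1, hK⟩ := exists_fam hop hcomp
  let S : Set ((X × X) × X) :=
    {z | Red z.2 (t0 z.1.1) (t1 z.1.2) ∧ Red1 (t0 z.1.1) z.2 ∧ Red1 (t1 z.1.2) z.2}
  have hm0 : Measurable (fun z : (X × X) × X => t0 z.1.1) :=
    hc0.measurable.comp (measurable_fst.comp measurable_fst)
  have hm1 : Measurable (fun z : (X × X) × X => t1 z.1.2) :=
    hc1.measurable.comp (measurable_snd.comp measurable_fst)
  have hS : MeasurableSet S :=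
    (red_meas' measurable_snd hm0 hm1).inter
      ((red1_meas' hm0 measurable_snd).inter (red1_meas' hm1 measurable_snd))
  obtain ⟨hD0, δ, hδ, hδS⟩ := lusin S hS (by
    rintro p q x ⟨-, h1, h2⟩ ⟨h3, -, -⟩
    exact Prod.ext (hi0 _ _ _ (h1.trans2 h3)) (hi1 _ _ _ (h2.trans2 h3)))
  let T : Set (X × X) := {z | Red1 z.2 (t0 z.1) ∧ Red1 (t0 z.1) z.2}
  have hT : MeasurableSet T :=
    (red1_meas' measurable_snd (hc0.measurable.comp measurable_fst)).inter
      (red1_meas' (hc0.measurable.comp measurable_fst) measurable_snd)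
  obtain ⟨hG, -⟩ := lusin T hT (by
    rintro p q x ⟨-, h1⟩ ⟨h2, -⟩
    refine hi0 p q p ((h1.trans h2).trans2 ?_)
    exact .oracle _ (by simp))
  obtain ⟨B, D, φ, hB, hD, hφ, hW⟩ := win_decomp
  have hY : ∀ A x, x ∈ ({x | ∃ p, (p, x) ∈ S}ᶜ ∪ δ ⁻¹' B) ∪ (δ ⁻¹' D ∩ (φ ∘ δ) ⁻¹' A) ↔
      ((¬ ∃ p, (p, x) ∈ S) ∨ Win evn A (δ x).1 (δ x).2) := by
    intro A x
    rw [← hW, union_assoc]
    rfl
  refine ⟨{x | ∃ p, (p, x) ∈ T}, {x | ∃ p, (p, x) ∈ S}ᶜ ∪ δ ⁻¹' B, δ ⁻¹' D, φ ∘ δ, hG,
    hD0.compl.union (hδ hB), hδ hD, hφ.comp hδ, ?_, fun A => ⟨?_, ?_, ?_⟩⟩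
  · rintro x y hxy ⟨p, h1, h2⟩
    rw [equiv_iff] at hxy
    exact ⟨p, hxy.2.trans h1, h2.trans hxy.1⟩
  · intro x y hxy hx
    rw [equiv_iff] at hxy
    rw [hY] at hx ⊢
    by_cases hy : ∃ p, (p, y) ∈ S
    · obtain ⟨p, hp⟩ := hy
      have hpx : (p, x) ∈ S := ⟨hxy.1.trans2 hp.1, hp.2.1.trans hxy.2, hp.2.2.trans hxy.2⟩
      rcases hx with hx | hx
      · exact absurd ⟨p, hpx⟩ hx
      · right
        rw [hδS p y hp, ← hδS p x hpx]
        exact hx
    · exact Or.inl hy
  · rintro ⟨σ, hσ⟩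
    let x : X → X := fun w => play evn σ (t1 w)
    have hxc : Continuous x := (play_cont _ _).comp hc1
    have hod : ∀ w, od (x w) = t1 w := fun w => funext fun n => by
      have h1 : evn (2 * n + 1) = false := by simp [evn]
      simp only [od, x, play, h1]
      rw [show (2 * n + 1) / 2 = n by omega]
      simp
    have hx : ∀ w, ∃ w', ((w', w), x w) ∈ S ∧ Win evn A w' w := by
      intro w
      obtain ⟨h1, w', h2, h3⟩ := hσ (x w) (fun n => by
        have h1 : evn (2 * n) = true := by simp [evn]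
        simp only [x]
        rw [pos_play]
        simp [play, h1])
      have hp : ((w', w), x w) ∈ S := by
        refine ⟨(red_join (x w)).trans1 h2 ?_, h3.trans (red1_ev _), ?_⟩
        · rw [hod]; exact red1_refl _
        · show Red1 (t1 w) (x w)
          rw [← hod]; exact red1_od _
      refine ⟨w', hp, ?_⟩
      rcases (hY A _).1 h1 with h4 | h4
      · exact absurd ⟨_, hp⟩ h4
      · rwa [hδS _ _ hp] at h4
    choose ψ hψ1 hψ2 using hx
    obtain ⟨s, hs⟩ := side (th := evn) (A := A) (ψ := ψ)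
      (fun e => {q | Φ e (t0 q.2, t1 q.1) = orc (x q.1)})
      (fun e => (hK e).preimage
        ((continuous_snd.prodMk continuous_fst).prodMk (hxc.comp continuous_fst)))
      (fun w => hcomp (t0 (ψ w), t1 w) _ (hψ1 w).1)
      (fun e w w' h => by
        have h1 := hsound e (t0 w', t1 w)
        rw [show Φ e (t0 w', t1 w) = orc (x w) from h] at h1
        exact (hi0 _ _ _ ((hψ1 w).2.1.trans2 h1)).symm) hψ2
    refine ⟨s, fun y hy => hs y fun n hn => ?_⟩
    have : n = 2 * (n / 2) := by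
      simp only [evn, decide_eq_true_eq] at hn
      omega
    rw [this]
    exact hy _
  · rintro ⟨τ, hτ⟩
    let x : X → X := fun w => play odd τ (t0 w)
    have hxc : Continuous x := (play_cont _ _).comp hc0
    have hev : ∀ w, ev (x w) = t0 w := fun w => funext fun n => by
      have h1 : odd (2 * n) = false := by simp [odd, evn]
      simp only [ev, x, play, h1]
      rw [show (2 * n) / 2 = n by omega]
      simp
    have hx : ∀ w, ∃ w', ((w, w'), x w) ∈ S ∧ Win odd Aᶜ w' w := by
      intro w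
      have h1 := hτ (x w) (fun n => by
        have h1 : odd (2 * n + 1) = true := by simp [odd, evn]
        simp only [x]
        rw [pos_play]
        simp [play, h1])
      have h2 : ev (x w) ∈ {x | ∃ p, (p, x) ∈ T} := by
        rw [hev]
        exact ⟨w, red1_refl _, red1_refl _⟩
      have h3 := fun h => h1 ⟨(hY A _).2 h, h2⟩
      rw [imp_false, not_or, not_not] at h3
      obtain ⟨⟨⟨w0, w'⟩, hp⟩, h4⟩ := h3
      have h5 : Red1 (t0 w) (x w) := by rw [← hev]; exact red1_ev _
      have h6 : w = w0 := hi0 _ _ _ (h5.trans2 hp.1)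
      subst h6
      rw [hδS _ _ hp] at h4
      exact ⟨w', hp, win_flip h4⟩
    choose ψ hψ1 hψ2 using hx
    obtain ⟨s, hs⟩ := side (th := odd) (A := Aᶜ) (ψ := ψ)
      (fun e => {q | Φ e (t0 q.1, t1 q.2) = orc (x q.1)})
      (fun e => (hK e).preimage (continuous_id.prodMk (hxc.comp continuous_fst)))
      (fun w => hcomp (t0 w, t1 (ψ w)) _ (hψ1 w).1)
      (fun e w w' h => by
        have h1 := hsound e (t0 w, t1 w')
        rw [show Φ e (t0 w, t1 w') = orc (x w) from h] at h1
        exact (hi1 _ _ _ ((hψ1 w).2.2.trans2 h1)).symm) hψ2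
    refine ⟨s, fun y hy => hs y fun n hn => ?_⟩
    have : n = 2 * (n / 2) + 1 := by
      simp only [odd, evn, Bool.not_eq_true', decide_eq_false_iff_not] at hn
      omega
    rw [this]
    exact hy _

end Pool.Agent.H878Z.TD
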